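import Pool.Agent.Lib.MP_b9fd58_lc.T.TD

/-!
# Stream T: Theorem T (bands split off)
-/

set_option autoImplicit false

namespace StrAlg

open Module Polynomial SAlg

variable {D : Dat} {k : Type} [Field k] {S : Sides D}

namespace TT

/-! ### Order of words -/

theorem WLt.trans {u v w : Wd} (h : WLt u v) (h' : WLt v w) : WLt u w := by
  obtain ⟨n, h1, h2⟩ := h
  obtain ⟨m, h3, h4⟩ := h'
  rcases lt_trichotomy n m with h5 | h5 | h5
  · exact ⟨n, fun i hi => (h1 i hi).trans (h3 i (hi.trans h5)), by rw [← h3 n h5]; exact h2⟩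
  · subst h5
    exact ⟨n, fun i hi => (h1 i hi).trans (h3 i hi), h2.trans h4⟩
  · exact ⟨m, fun i hi => (h1 i (hi.trans h5)).trans (h3 i hi), by rw [h1 m h5]; exact h4⟩

theorem WLt.irrefl (u : Wd) : ¬ WLt u u := by
  rintro ⟨n, -, h⟩
  exact absurd h (lt_irrefl _)

theorem WLw.refl (u : Wd) : WLw u u := Or.inl rfl

theorem WLw.trans {u v w : Wd} (h : WLw u v) (h' : WLw v w) : WLw u w := by
  rcases h with rfl | h
  · exact h'
  · rcases h' with rfl | h'
    · exact Or.inr h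
    · exact Or.inr (WLt.trans h h')

theorem WLw.antisymm {u v : Wd} (h : WLw u v) (h' : WLw v u) : u = v := by
  rcases h with rfl | h
  · rfl
  · rcases h' with rfl | h'
    · rfl
    · exact absurd (WLt.trans h h') (WLt.irrefl _)

/-- the relation of the unitriangularity -/
def LeP (w : BiS S) (p q : ℤ) : Prop := w.v p = w.v q ∧ ∀ s, WLw (w.wd p s) (w.wd q s)

theorem EqF_ext {l : ℕ} (hl0 : 0 < l) {V : Type} [AddCommGroup V] [Module k V] {T : V ≃ₗ[k] V}
    {m : ℤ → V} (hm : ∀ p : ℤ, T (m (p + l)) = m p) (h : ∀ q ∈ Finset.range l, m (q : ℤ) = 0) : m = 0 := by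
  have h1 : ∀ p : ℤ, m (p + l) = 0 ↔ m p = 0 := by
    intro p
    constructor
    · intro h; rw [← hm p, h, map_zero]
    · intro h
      apply T.injective
      rw [hm p, h, map_zero]
  have h2 : ∀ (t : ℤ) (p : ℤ), m (p + t * l) = 0 ↔ m p = 0 := by
    intro t
    induction t using Int.induction_on with
    | zero => intro p; simp
    | succ i ih =>
      intro p
      rw [show p + ((i : ℤ) + 1) * l = (p + i * l) + l by ring, h1, ih]
    | pred i ih =>
      intro p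
      rw [← ih p, show p + -(i : ℤ) * l = (p + (-(i : ℤ) - 1) * l) + l by ring, h1]
  funext p
  have hl1 : (0 : ℤ) < l := by exact_mod_cast hl0
  have h3 := Int.emod_nonneg p hl1.ne'
  have h4 := Int.emod_lt_of_pos p hl1
  have h5 : p = p % l + (p / l) * l := by rw [mul_comm]; exact (Int.emod_add_mul_ediv p l).symm
  show m p = 0
  rw [h5, h2]
  have h6 := h (p % l).toNat (by rw [Finset.mem_range]; omega)
  rwa [show (((p % l).toNat : ℕ) : ℤ) = p % l by omega] at h6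

section main
variable {b : Str S} {l : ℕ} (hl : b.MinPer l) {N : Md D k} {W : Submodule k[X] (rl hl N).QX}
  (hW : IsCompl (rl hl N).K0 W) (ρ : (rl hl N).PX →ₗ[k[X]] W) (hρ : ∀ w : W, ρ ((rl hl N).nu w) = w)

/-- `π ε` -/
noncomputable def ET : (MW hl hW).C →ₗ[k] (MW hl hW).C := piT hl hW ρ ∘ₗ epT hl hW

theorem ET_apply (m : (MW hl hW).C) (p : ℤ) :
    (ET hl hW ρ m).1 p = ∑ q ∈ Finset.range l, xi hl ρ p (vl hl (q : ℤ) (m.1 q)) := by
  show xi hl ρ p (epT hl hW m) = _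
  rw [epT_apply, map_sum]

include hρ in
theorem diag_one (w : W) (p : ℤ) : xi hl ρ p (vl hl p w) = w := by
  rw [xi_apply]
  have h1 : (rl hl N).dl p (vl hl p w) = (rl hl N).nu w := ((rl hl N).nu_eq w.1 p).symm
  rw [h1, hρ]

/-- `π ε - 1` -/
noncomputable def EN : Module.End k (MW hl hW).C := ET hl hW ρ - 1

include hρ in
theorem EN_apply (m : (MW hl hW).C) {p : ℕ} (hp : p ∈ Finset.range l) :
    (EN hl hW ρ m).1 (p : ℤ) = ∑ q ∈ (Finset.range l).erase p, xi hl ρ (p : ℤ) (vl hl (q : ℤ) (m.1 q)) := by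
  have h1 : (EN hl hW ρ m).1 (p : ℤ) = (ET hl hW ρ m).1 (p : ℤ) - m.1 (p : ℤ) := rfl
  rw [h1, ET_apply, ← Finset.add_sum_erase _ _ hp]
  rw [diag_one hl ρ hρ]
  abel

open Classical in
/-- number of residues above `p` -/
noncomputable def hgt (w : BiS S) (l : ℕ) (p : ℕ) : ℕ :=
  ((Finset.range l).filter (fun q : ℕ => LeP w (p : ℤ) (q : ℤ))).card

theorem LeP.refl (w : BiS S) (p : ℤ) : LeP w p p := ⟨rfl, fun _ => WLw.refl _⟩

theorem LeP.trans {w : BiS S} {p q r : ℤ} (h : LeP w p q) (h' : LeP w q r) : LeP w p r :=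
  ⟨h.1.trans h'.1, fun s => WLw.trans (h.2 s) (h'.2 s)⟩

theorem hgt_lt {w : BiS S} {l : ℕ} (hmin : w.MinPer l) {p q : ℕ} (hp : p ∈ Finset.range l) (hq : q ∈ Finset.range l)
    (hne : q ≠ p) (h : LeP w (p : ℤ) (q : ℤ)) : hgt w l q < hgt w l p := by
  classical
  have hnot : ¬ LeP w (q : ℤ) (p : ℤ) := by
    intro h'
    have h1 := sym_per h.1 (fun s => WLw.antisymm (h.2 s) (h'.2 s))
    have h2 := dvd_of_per hmin h1
    rw [Finset.mem_range] at hp hq
    obtain ⟨c, hc⟩ := h2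
    have hl1 : (0 : ℤ) < l := by exact_mod_cast hmin.1
    have h3 : c = 0 := by
      rcases lt_trichotomy c 0 with h4 | h4 | h4
      · exfalso
        have : (l : ℤ) * c ≤ (l : ℤ) * (-1) := mul_le_mul_of_nonneg_left (by omega) hl1.le
        omega
      · exact h4
      · exfalso
        have : (l : ℤ) * 1 ≤ (l : ℤ) * c := mul_le_mul_of_nonneg_left (by omega) hl1.le
        omega
    rw [h3, mul_zero] at hc
    omega
  unfold hgt
  apply Finset.card_lt_card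
  rw [Finset.ssubset_iff_of_subset]
  · refine ⟨p, ?_, ?_⟩
    · rw [Finset.mem_filter]
      exact ⟨hp, LeP.refl w _⟩
    · rw [Finset.mem_filter]
      rintro ⟨-, h'⟩
      exact hnot h'
  · intro r hr
    rw [Finset.mem_filter] at hr ⊢
    exact ⟨hr.1, h.trans hr.2⟩

include hρ in
theorem EN_pow (j : ℕ) : ∀ (m : (MW hl hW).C) (p : ℕ), p ∈ Finset.range l →
    hgt (bb hl) l p ≤ j → (((EN hl hW ρ) ^ j) m).1 (p : ℤ) = 0 := by
  classical
  induction j with
  | zero =>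
    intro m p hp h
    exfalso
    have h1 : 0 < hgt (bb hl) l p := by
      unfold hgt
      rw [Finset.card_pos]
      exact ⟨p, by rw [Finset.mem_filter]; exact ⟨hp, LeP.refl _ _⟩⟩
    omega
  | succ j ih =>
    intro m p hp h
    rw [pow_succ', Module.End.mul_apply, EN_apply hl hW ρ hρ _ hp]
    refine Finset.sum_eq_zero ?_
    intro q hq
    rw [Finset.mem_erase] at hq
    by_contra hne
    have h1 := ker_le (vl_ch hl ((((EN hl hW ρ) ^ j) m).1 (q : ℤ))) (xi_dch hl ρ) (p : ℤ) (q : ℤ) hne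
    have h2 : hgt (bb hl) l q < hgt (bb hl) l p := hgt_lt (bi_min hl.2.1.2 hl) hp hq.2 hq.1 h1
    have h3 := ih m q hq.2 (by omega)
    rw [h3, map_zero, map_zero] at hne
    exact hne rfl

include hρ in
theorem EN_nil : IsNilpotent (EN hl hW ρ) := by
  classical
  refine ⟨l, ?_⟩
  refine LinearMap.ext fun m => ?_
  apply Subtype.ext
  refine EqF_ext hl.1 (((EN hl hW ρ) ^ l) m).2.2 ?_
  intro q hq
  apply EN_pow hl hW ρ hρ l m q hq
  unfold hgt
  refine (Finset.card_filter_le _ _).trans ?_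
  rw [Finset.card_range]

end main

theorem Q_map {w : Str S} {M N : Md D k} (f : M.C →ₗ[k] N.C) (hf : M.Hom N f) {n : ℤ → M.C} (hn : n ∈ w.Q M) :
    (fun p => f (n p)) ∈ w.Q N := by
  refine ⟨fun q => ⟨fun i => ?_, fun a => ?_⟩, fun q hq => ?_⟩
  · show N.Q.op (Sum.inl i) (f (n q)) = _
    rw [← hf, (hn.1 q).1 i]
    split_ifs
    · rfl
    · exact map_zero f
  · show N.Q.op (Sum.inr a) (f (n q)) = _
    rw [← hf, (hn.1 q).2 a, map_sum]
    refine Finset.sum_congr rfl fun e _ => ?_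
    split_ifs
    · rfl
    · exact map_zero f
  · show f (n q) = 0
    rw [hn.2 q hq, map_zero]

/-- on the complement all chains are in `K0` -/
theorem K0_of_split {b : Str S} {l : ℕ} (hl : b.MinPer l) {N : Md D k} {W : Submodule k[X] (rl hl N).QX}
    (hW : IsCompl (rl hl N).K0 W) (ρ : (rl hl N).PX →ₗ[k[X]] W)
    (hρ : ∀ w : W, ρ ((rl hl N).nu w) = w) {N' : Md D k} (i₂ : N'.C →ₗ[k] N.C) (hi₂ : N'.Hom N i₂)
    (r₂ : N.C →ₗ[k] N'.C) (hr₂ : N.Hom N' r₂) (h2 : ∀ x, r₂ (i₂ x) = x)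
    (h0 : ∀ x, xi hl ρ 0 (i₂ x) = 0) : ∀ n ∈ b.Q N', b.K0 N' n := by
  intro n hn
  have hper := bi_per hl.2.1.2 hl.2.1
  -- the chain in `N`
  have hx' : (fun p => i₂ (n p)) ∈ (rl hl N).Ch := by
    rw [← BCh_iff hl.1 hper N, ← Q_bi]
    exact Q_map i₂ hi₂ hn
  obtain ⟨x, hxv⟩ : ∃ x : (rl hl N).QX, ∀ p, (rl hl N).val x p = i₂ (n p) :=
    ⟨(rl hl N).mkQ _ hx', fun p => BRel.val_mkQ _ _ _ _⟩
  have hx : x ∈ (rl hl N).K0 ⊔ W := by rw [hW.sup_eq_top]; exact Submodule.mem_top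
  obtain ⟨κ, hκ, w', hw', hkw⟩ := Submodule.mem_sup.1 hx
  have h3 : ρ ((rl hl N).nu x) = ⟨w', hw'⟩ := by
    rw [← hkw, map_add, map_add, BRel.nu_K0 _ κ hκ, map_zero, zero_add]
    exact hρ ⟨w', hw'⟩
  have h4 : ρ ((rl hl N).nu x) = 0 := by
    have h6 := h0 (n 0)
    rw [xi_apply] at h6
    rw [BRel.nu_apply, hxv]
    exact h6
  have h5 : w' = 0 := congrArg Subtype.val (h3.symm.trans h4)
  have h6 : x ∈ (rl hl N).K0 := by
    rw [← hkw, h5, add_zero]
    exact hκ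
  obtain ⟨a, ⟨ma, hma⟩, c, ⟨mc, hmc⟩, hac⟩ := Submodule.mem_sup.1 h6
  have hch : ∀ y : (rl hl N).QX, (fun p => (rl hl N).val y p) ∈ b.Q N := by
    intro y
    rw [Q_bi hl.2.1.2, BCh_iff hl.1 hper N]
    exact (rl hl N).val_rel y
  refine ⟨_, Q_map r₂ hr₂ (hch a), _, Q_map r₂ hr₂ (hch c), ?_, ⟨ma, ?_⟩, ⟨mc, ?_⟩⟩
  · funext p
    have e1 : (rl hl N).val a p + (rl hl N).val c p = i₂ (n p) := by
      rw [← BRel.val_add, hac, hxv]
    have e3 : n p = r₂ ((rl hl N).val a p) + r₂ ((rl hl N).val c p) := by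
      rw [← map_add, e1, h2]
    exact e3
  · intro p hp
    show r₂ ((rl hl N).val a p) = 0
    rw [hma p hp, map_zero]
  · intro p hp
    show r₂ ((rl hl N).val c p) = 0
    rw [hmc p hp, map_zero]

end TT

open TT

/-- **Theorem T**: bands split off nice modules. -/
theorem thmT (hD : D.IsString) (b : Str S) (l : ℕ) (hl : b.MinPer l) (N : Md D k) (hN : N.Nice) :
    ∃ (W : Type) (_ : AddCommGroup W) (_ : Module k W) (T : W ≃ₗ[k] W) (h : b.PerOK l T) (N' : Md D k),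
      N.Dec (b.ME l T h) N' ∧ ∀ n ∈ b.Q N', b.K0 N' n := by
  obtain ⟨W, hW, ρ, hρ⟩ := exists_splitT hl.1 (bi_per hl.2.1.2 hl.2.1) hN
  have hu : IsUnit (1 + EN hl hW ρ) := (EN_nil hl hW ρ hρ).isUnit_one_add
  have hE : 1 + EN hl hW ρ = ET hl hW ρ := by
    unfold EN
    abel
  rw [hE] at hu
  obtain ⟨u, hu⟩ := hu
  let θ : Module.End k (MW hl hW).C := (u⁻¹ : (Module.End k _)ˣ).1
  have h1 : ∀ x, ET hl hW ρ (θ x) = x := by
    intro x
    have := LinearMap.congr_fun (Units.mul_inv u) x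
    rw [hu] at this
    exact this
  have h2 : ∀ x, θ (ET hl hW ρ x) = x := by
    intro x
    have := LinearMap.congr_fun (Units.inv_mul u) x
    rw [hu] at this
    exact this
  have hpi := piT_hom hl hW ρ
  have hep := epT_hom hl hW
  have hET : (MW hl hW).Hom (MW hl hW) (ET hl hW ρ) := by
    intro g m
    show piT hl hW ρ (epT hl hW _) = _
    rw [hep, hpi]
    rfl
  have hθ : (MW hl hW).Hom (MW hl hW) θ := by
    intro g m
    have h3 := hET g (θ m)
    rw [h1] at h3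
    rw [← h3, h2]
  let i₁ : (MW hl hW).C →ₗ[k] N.C := epT hl hW ∘ₗ θ
  let r₁ : N.C →ₗ[k] (MW hl hW).C := piT hl hW ρ
  have hi₁ : (MW hl hW).Hom N i₁ := by
    intro g m
    show epT hl hW (θ _) = _
    rw [hθ, hep]
    rfl
  have hri : ∀ x, r₁ (i₁ x) = x := h1
  let N' : Md D k := ⟨LinearMap.ker r₁, N.Q.sub (LinearMap.ker r₁) (fun g n hn => by
    rw [LinearMap.mem_ker] at hn ⊢
    rw [hpi g n, hn, map_zero])⟩
  let i₂ : N'.C →ₗ[k] N.C := (LinearMap.ker r₁).subtype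
  let r₂ : N.C →ₗ[k] N'.C := (LinearMap.id - i₁ ∘ₗ r₁).codRestrict (LinearMap.ker r₁) (fun n => by
    rw [LinearMap.mem_ker, LinearMap.sub_apply, map_sub, LinearMap.comp_apply, hri, LinearMap.id_apply, sub_self])
  have hr₂v : ∀ n, (r₂ n).1 = n - i₁ (r₁ n) := fun n => rfl
  have hi₂ : N'.Hom N i₂ := fun g m => rfl
  have hr₂ : N.Hom N' r₂ := by
    intro g n
    apply Subtype.ext
    show N.Q.op g n - i₁ (r₁ (N.Q.op g n)) = N.Q.op g (n - i₁ (r₁ n))
    rw [hpi g n, hi₁, map_sub]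
  refine ⟨W, inferInstance, inferInstance, TW hl hW, TW_ok hl hW, N', ⟨i₁, r₁, i₂, r₂, hi₁, hpi, hi₂, hr₂, ?_, ?_,
    ?_, ?_, ?_⟩, ?_⟩
  · exact LinearMap.ext hri
  · refine LinearMap.ext fun n => ?_
    apply Subtype.ext
    show n.1 - i₁ (r₁ n.1) = n.1
    have h3 : r₁ n.1 = 0 := n.2
    rw [h3, map_zero, sub_zero]
  · refine LinearMap.ext fun n => ?_
    exact n.2
  · refine LinearMap.ext fun x => ?_
    apply Subtype.ext
    show i₁ x - i₁ (r₁ (i₁ x)) = 0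
    rw [hri, sub_self]
  · refine LinearMap.ext fun x => ?_
    show i₁ (r₁ x) + (x - i₁ (r₁ x)) = x
    abel
  · intro n hn
    refine K0_of_split hl hW ρ hρ i₂ hi₂ r₂ hr₂ ?_ ?_ n hn
    · intro x
      apply Subtype.ext
      show x.1 - i₁ (r₁ x.1) = x.1
      have h3 : r₁ x.1 = 0 := x.2
      rw [h3, map_zero, sub_zero]
    · intro x
      have h3 : r₁ x.1 = 0 := x.2
      have h4 : (r₁ x.1).1 0 = 0 := by
        rw [h3]
        rfl
      exact h4

end StrAlg
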