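import Pool.Agent.Lib.MP_b9fd58_lc.IfDefs

/-!
# Stream D: a pair is open on a module iff the dual pair is open on the dual module
-/

set_option autoImplicit false

namespace StrAlg

open Module

section core
variable {k : Type} [Field k] {G : Type} [Fintype G]
variable {A N : Type} [AddCommGroup A] [Module k A] [AddCommGroup N] [Module k N]

/-- A functional which kills the values at `a` of all homomorphisms `A → N` is sent by every dual homomorphism to a
functional which kills `a`. -/
theorem core_dual [FiniteDimensional k A] (s : G → A →ₗ[k] A) (t : G → N →ₗ[k] N) (a : A) (lam : Dual k N)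
    (h : ∀ f : A →ₗ[k] N, (∀ g m, f (s g m) = t g (f m)) → lam (f a) = 0)
    (Γ : Dual k N →ₗ[k] Dual k A) (hΓ : ∀ g μ, Γ (μ ∘ₗ t g) = (Γ μ) ∘ₗ s g) : Γ lam a = 0 := by
  classical
  set B := Module.finBasis k A with hB
  let Φ : (A →ₗ[k] N) →ₗ[k] (G → A →ₗ[k] N) :=
    LinearMap.pi (fun g => (LinearMap.lcomp k N (s g)) - (LinearMap.llcomp k A N N (t g)))
  have hΦ : ∀ f g, Φ f g = f ∘ₗ s g - t g ∘ₗ f := fun f g => rfl
  let ev : (A →ₗ[k] N) →ₗ[k] k := lam ∘ₗ (LinearMap.applyₗ a)
  have hev : ∀ f, ev f = lam (f a) := fun f => rfl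
  have h1 : ev ∈ (LinearMap.ker Φ).dualAnnihilator := by
    rw [Submodule.mem_dualAnnihilator]
    intro f hf
    rw [LinearMap.mem_ker] at hf
    rw [hev]
    apply h f
    intro g m
    have h2 := congrArg (fun F : G → A →ₗ[k] N => F g m) hf
    simp only [hΦ, LinearMap.sub_apply, LinearMap.comp_apply, Pi.zero_apply, LinearMap.zero_apply] at h2
    exact sub_eq_zero.1 h2
  rw [← LinearMap.range_dualMap_eq_dualAnnihilator_ker] at h1
  obtain ⟨μ, hμ⟩ := h1
  have hμ' : ∀ f, μ (Φ f) = lam (f a) := fun f => LinearMap.congr_fun hμ f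
  -- the components of `μ`
  let L : G → Fin (finrank k A) → Dual k N := fun g j =>
    μ ∘ₗ (LinearMap.single k (fun _ => A →ₗ[k] N) g) ∘ₗ (LinearMap.smulRightₗ (B.coord j))
  have hL : ∀ g j n, L g j n = μ (Pi.single g ((B.coord j).smulRight n)) := fun g j n => rfl
  have hsum : ∀ (g : G) (f : A →ₗ[k] N), μ (Pi.single g f) = ∑ j, L g j (f (B j)) := by
    intro g f
    have h3 : f = ∑ j, (B.coord j).smulRight (f (B j)) := by
      apply B.ext
      intro i
      rw [LinearMap.sum_apply, Finset.sum_eq_single i]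
      · simp
      · intro j _ hj
        simp [hj]
      · intro hi
        exact absurd (Finset.mem_univ i) hi
    conv_lhs => rw [h3]
    have h4 : (Pi.single g (∑ j, (B.coord j).smulRight (f (B j))) : G → A →ₗ[k] N) =
        ∑ j, Pi.single g ((B.coord j).smulRight (f (B j))) := by
      exact map_sum (LinearMap.single k (fun _ => A →ₗ[k] N) g) _ _
    rw [h4, map_sum]
    rfl
  have hall : ∀ F : G → A →ₗ[k] N, μ F = ∑ g, ∑ j, L g j (F g (B j)) := by
    intro F
    conv_lhs => rw [← Finset.univ_sum_single F]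
    rw [map_sum]
    exact Finset.sum_congr rfl (fun g _ => hsum g (F g))
  -- the identity in the dual space of `N`
  have key : ∀ i, (B.coord i a) • lam = ∑ g, ((∑ j, (B.coord i (s g (B j))) • L g j) - (L g i) ∘ₗ t g) := by
    intro i
    ext n
    have h5 := hμ' ((B.coord i).smulRight n)
    rw [hall] at h5
    simp only [LinearMap.smulRight_apply, map_smul] at h5
    rw [LinearMap.smul_apply, ← h5, LinearMap.sum_apply]
    refine Finset.sum_congr rfl ?_
    intro g _
    rw [LinearMap.sub_apply, LinearMap.sum_apply]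
    have h6 : ∀ j, L g j ((Φ ((B.coord i).smulRight n) g) (B j)) =
        (B.coord i (s g (B j))) • L g j n - (if j = i then L g i (t g n) else 0) := by
      intro j
      have h7 : (Φ ((B.coord i).smulRight n) g) (B j) =
          (B.coord i (s g (B j))) • n - t g ((B.coord i (B j)) • n) := rfl
      rw [h7, map_sub, map_smul]
      congr 1
      by_cases hj : j = i
      · subst hj
        rw [if_pos rfl]
        simp
      · rw [if_neg hj]
        simp [hj]
    rw [Finset.sum_congr rfl (fun j _ => h6 j), Finset.sum_sub_distrib, Finset.sum_ite_eq' Finset.univ i,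
      if_pos (Finset.mem_univ i)]
    rfl
  have h7 : Γ lam a = ∑ i, Γ ((B.coord i a) • lam) (B i) := by
    conv_lhs => rw [← B.sum_repr a]
    rw [map_sum]
    refine Finset.sum_congr rfl ?_
    intro i _
    rw [map_smul, map_smul]
    rfl
  rw [h7]
  have h8 : ∀ i, Γ ((B.coord i a) • lam) (B i) =
      ∑ g, ((∑ j, (B.coord i (s g (B j))) * Γ (L g j) (B i)) - Γ (L g i) (s g (B i))) := by
    intro i
    rw [key i, map_sum, LinearMap.sum_apply]
    refine Finset.sum_congr rfl ?_
    intro g _
    rw [map_sub, LinearMap.sub_apply, map_sum, LinearMap.sum_apply, hΓ]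
    congr 1
    refine Finset.sum_congr rfl ?_
    intro j _
    rw [map_smul]
    rfl
  rw [Finset.sum_congr rfl (fun i _ => h8 i), Finset.sum_comm]
  refine Finset.sum_eq_zero ?_
  intro g _
  rw [Finset.sum_sub_distrib, sub_eq_zero, Finset.sum_comm]
  refine Finset.sum_congr rfl ?_
  intro j _
  conv_rhs => rw [← B.sum_repr (s g (B j))]
  rw [map_sum]
  refine Finset.sum_congr rfl ?_
  intro i _
  rw [map_smul]
  rfl

end core

variable {D : Dat} {k : Type} [Field k]

theorem opn_dual (p : Pr D k) (hp : p.FD) (N : Md D k) : p.Opn N ↔ p.dual.Opn N.dual := by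
  obtain ⟨hA, hB⟩ := hp
  constructor
  · rintro ⟨f, G, hf, hG, hne⟩
    refine ⟨G.dualMap, f.dualMap, ?_, ?_, hne⟩
    · intro g m
      change Dual k p.B.C at m
      refine LinearMap.ext fun n => ?_
      exact congrArg (fun x => m x) (hG g n).symm
    · intro g m
      change Dual k N.C at m
      refine LinearMap.ext fun n => ?_
      exact congrArg (fun x => m x) (hf g n).symm
  · rintro ⟨φ, Γ, hφ, hΓ, hne⟩
    change Dual k p.B.C →ₗ[k] Dual k N.C at φ
    change Dual k N.C →ₗ[k] Dual k p.A.C at Γ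
    by_contra hcon
    apply hne
    -- the homomorphism `N → B`
    let e := Module.evalEquiv k p.B.C
    let G : N.C →ₗ[k] p.B.C := e.symm.toLinearMap ∘ₗ φ.dualMap ∘ₗ Dual.eval k N.C
    have hG0 : ∀ n (β : Dual k p.B.C), β (G n) = φ β n := by
      intro n β
      have h1 : e (G n) = φ.dualMap (Dual.eval k N.C n) := LinearEquiv.apply_symm_apply e _
      have h2 : e (G n) β = β (G n) := rfl
      rw [← h2, h1]
      rfl
    have hG : N.Hom p.B G := by
      intro g n
      apply e.injective
      ext β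
      show β (G (N.Q.op g n)) = β (p.B.Q.op g (G n))
      rw [hG0]
      have h3 := LinearMap.congr_fun (hφ g β) n
      have h4 : (φ β) (N.Q.op g n) = φ (β ∘ₗ p.B.Q.op g) n := h3.symm
      rw [h4, ← hG0]
      rfl
    refine core_dual (fun g => p.A.Q.op g) (fun g => N.Q.op g) p.a (φ p.b) ?_ Γ ?_
    · intro f hf
      by_contra h5
      exact hcon ⟨f, G, hf, hG, by rw [hG0]; exact h5⟩
    · intro g μ
      exact hΓ g μ

theorem opn_codual (p : Pr D k) (hp : p.FD) (N : Md D.op k) : p.Opn N.codual ↔ p.dual.Opn N := by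
  obtain ⟨hA, hB⟩ := hp
  let e := Module.evalEquiv k p.B.C
  constructor
  · rintro ⟨f, G, hf, hG, hne⟩
    change p.A.C →ₗ[k] Dual k N.C at f
    change Dual k N.C →ₗ[k] p.B.C at G
    by_contra hcon
    apply hne
    let G' : N.C →ₗ[k] Dual k p.A.C := f.dualMap ∘ₗ Dual.eval k N.C
    have hG' : N.Hom p.dual.B G' := by
      intro g n
      refine LinearMap.ext fun x => ?_
      exact (LinearMap.congr_fun (hf g x) n).symm
    have h1 := core_dual (A := Dual k p.B.C) (N := N.C) (fun g => (p.B.Q.op g).dualMap) (fun g => N.Q.op g) p.b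
      (f p.a) ?_ (e.toLinearMap ∘ₗ G) ?_
    · exact h1
    · intro f' hf'
      by_contra h5
      exact hcon ⟨f', G', hf', hG', h5⟩
    · intro g μ
      ext β
      show β (G (μ ∘ₗ N.Q.op g)) = (β ∘ₗ p.B.Q.op g) (G μ)
      have h6 := hG g μ
      have h7 : G (μ ∘ₗ N.Q.op g) = p.B.Q.op g (G μ) := h6
      rw [h7]
      rfl
  · rintro ⟨f', G', hf', hG', hne⟩
    change Dual k p.B.C →ₗ[k] N.C at f'
    change N.C →ₗ[k] Dual k p.A.C at G'
    let f : p.A.C →ₗ[k] Dual k N.C := G'.dualMap ∘ₗ Dual.eval k p.A.C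
    let G : Dual k N.C →ₗ[k] p.B.C := e.symm.toLinearMap ∘ₗ f'.dualMap
    have hG0 : ∀ n (β : Dual k p.B.C), β (G n) = n (f' β) := by
      intro n β
      have h1 : e (G n) = f'.dualMap n := LinearEquiv.apply_symm_apply e _
      have h2 : e (G n) β = β (G n) := rfl
      rw [← h2, h1]
      rfl
    refine ⟨f, G, ?_, ?_, ?_⟩
    · intro g x
      refine LinearMap.ext fun n => ?_
      exact (LinearMap.congr_fun (hG' g n) x).symm
    · intro g μ
      change Dual k N.C at μ
      apply e.injective
      ext β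
      show β (G (μ ∘ₗ N.Q.op g)) = β (p.B.Q.op g (G μ))
      rw [hG0]
      have h3 : f' (β ∘ₗ p.B.Q.op g) = N.Q.op g (f' β) := hf' g β
      show μ (N.Q.op g (f' β)) = _
      rw [← h3, ← hG0]
      rfl
    · show p.b (G (f p.a)) ≠ 0
      rw [hG0]
      exact hne

end StrAlg
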