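import Pool.Agent.Lib.MP_b9fd58_lc.T.TA

/-!
# Stream T: terms in images and preimages, saturation of nice modules
-/

set_option autoImplicit false

namespace StrAlg

open Module Polynomial SAlg

variable {D : Dat} {k : Type} [Field k] {S : Sides D}

/-- lattice terms in images and preimages -/
inductive PT (D : Dat)
  | bot | top
  | map (g : D.Gen) (t : PT D)
  | comap (g : D.Gen) (t : PT D)
  | sup (s t : PT D)
  | inf (s t : PT D)

/-- value of a term in a module -/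
def PT.ev (N : Md D k) : PT D → Submodule k N.C
  | .bot => ⊥
  | .top => ⊤
  | .map g t => (t.ev N).map (N.Q.op g)
  | .comap g t => (t.ev N).comap (N.Q.op g)
  | .sup s t => s.ev N ⊔ t.ev N
  | .inf s t => s.ev N ⊓ t.ev N

/-- `N_i` -/
def PT.at (i : Fin D.nV) : PT D := .map (Sum.inl i) .top

/-- saturation: a decreasing sequence of nonempty cosets of pp-definable subspaces has a common point -/
def Md.Sat (N : Md D k) : Prop :=
  ∀ (t : ℕ → PT D) (y : ℕ → N.C),
    (∀ n, (t (n + 1)).ev N ≤ (t n).ev N) → (∀ n, y (n + 1) - y n ∈ (t n).ev N) →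
    ∃ z, ∀ n, z - y n ∈ (t n).ev N

theorem ev_isCl (X : Md D.op k) (t : PT D) : IsCl (t.ev X.codual : Submodule k (Dual k X.C)) := by
  induction t with
  | bot => exact IsCl.bot
  | top => exact IsCl.top
  | map g t ih => exact IsCl.map (X.Q.op g) ih
  | comap g t ih => exact IsCl.comap (X.Q.op g) ih
  | sup a b iha ihb => exact iha.sup ihb
  | inf a b iha ihb => exact iha.inf ihb

theorem sat_codual (X : Md D.op k) : X.codual.Sat := by
  intro t y h1 h2
  exact IsCl.compact (fun n => (t n).ev X.codual) (fun n => ev_isCl X (t n)) y h1 h2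

theorem ev_hom {M N : Md D k} (f : M.C →ₗ[k] N.C) (hf : M.Hom N f) (t : PT D) :
    ∀ x ∈ t.ev M, f x ∈ t.ev N := by
  induction t with
  | bot =>
    intro x hx
    rw [(Submodule.mem_bot k).1 hx, map_zero]
    exact Submodule.zero_mem _
  | top => intro x _; exact Submodule.mem_top
  | map g t ih =>
    rintro _ ⟨x, hx, rfl⟩
    exact ⟨f x, ih x hx, (hf g x).symm⟩
  | comap g t ih =>
    intro x hx
    show N.Q.op g (f x) ∈ t.ev N
    rw [← hf]
    exact ih _ hx
  | sup a b iha ihb =>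
    intro x hx
    obtain ⟨y, hy, z, hz, rfl⟩ := Submodule.mem_sup.1 hx
    rw [map_add]
    exact Submodule.add_mem_sup (iha y hy) (ihb z hz)
  | inf a b iha ihb =>
    intro x hx
    exact ⟨iha x hx.1, ihb x hx.2⟩

theorem Md.Sat.ret {N N' : Md D k} (hN : N.Sat) (h : N'.Ret N) : N'.Sat := by
  obtain ⟨i, r, hi, hr, hri⟩ := h
  have hri' : ∀ x, r (i x) = x := fun x => LinearMap.congr_fun hri x
  intro t y h1 h2
  -- intersections of the terms
  let u : ℕ → PT D := fun n => Nat.rec (t 0) (fun j C => PT.inf C (t (j + 1))) n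
  have hus : ∀ n, u (n + 1) = PT.inf (u n) (t (n + 1)) := fun n => rfl
  have hmem : ∀ n x, x ∈ (t n).ev N' → x ∈ (u n).ev N' := by
    intro n
    induction n with
    | zero => intro x hx; exact hx
    | succ n ih =>
      intro x hx
      rw [hus]
      exact ⟨ih x (h1 n hx), hx⟩
  have hle : ∀ n, (u n).ev N ≤ (t n).ev N := by
    intro n
    cases n with
    | zero => exact le_rfl
    | succ n => rw [hus]; exact inf_le_right
  obtain ⟨z, hz⟩ := hN u (fun n => i (y n)) (fun n => by rw [hus]; exact inf_le_left) (fun n => by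
    rw [← map_sub]
    exact ev_hom i hi (u n) _ (hmem n _ (h2 n)))
  refine ⟨r z, fun n => ?_⟩
  have h3 := ev_hom r hr (t n) _ (hle n (hz n))
  rwa [map_sub, hri'] at h3

/-- nice modules are saturated -/
theorem Md.Nice.sat {N : Md D k} (hN : N.Nice) : N.Sat := by
  obtain ⟨X, hX⟩ := hN
  exact (sat_codual X).ret hX

theorem Md.Ret.trans {M N P : Md D k} (h : M.Ret N) (h' : N.Ret P) : M.Ret P := by
  obtain ⟨i, r, hi, hr, hri⟩ := h
  obtain ⟨i', r', hi', hr', hri'⟩ := h'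
  refine ⟨i' ∘ₗ i, r ∘ₗ r', ?_, ?_, ?_⟩
  · intro g m
    rw [LinearMap.comp_apply, hi, hi']
    rfl
  · intro g m
    rw [LinearMap.comp_apply, hr', hr]
    rfl
  · refine LinearMap.ext fun x => ?_
    show r (r' (i' (i x))) = x
    have h1 : r' (i' (i x)) = i x := LinearMap.congr_fun hri' (i x)
    rw [h1]
    exact LinearMap.congr_fun hri x

theorem Md.Nice.ret {N N' : Md D k} (hN : N.Nice) (h : N'.Ret N) : N'.Nice := by
  obtain ⟨X, hX⟩ := hN
  exact ⟨X, h.trans hX⟩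

theorem Md.Ret.refl (N : Md D k) : N.Ret N :=
  ⟨LinearMap.id, LinearMap.id, fun _ _ => rfl, fun _ _ => rfl, rfl⟩

theorem nice_codual (X : Md D.op k) : X.codual.Nice := ⟨X, Md.Ret.refl _⟩

theorem rel_op_op {r : List (Fin D.nE)} (hr : r ∈ D.op.op.rel) : r ∈ D.rel := by
  have h1 : D.op.op.rel = D.rel := by
    show (D.rel.map List.reverse).map List.reverse = D.rel
    rw [List.map_map]
    have h2 : (List.reverse ∘ List.reverse : List (Fin D.nE) → List (Fin D.nE)) = id := by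
      funext x
      exact List.reverse_reverse x
    rw [h2, List.map_id]
  rw [← h1]
  exact hr

/-- a module over `D` as a module over `D.op.op` -/
def QMod.opop {N : Type} [AddCommGroup N] [Module k N] (Q : QMod D k N) : QMod D.op.op k N where
  op := Q.op
  idem := Q.idem
  orth := Q.orth
  one := Q.one
  src := Q.src
  tgt := Q.tgt
  rel := fun r hr n => Q.rel r (rel_op_op hr) n

/-- the dual of a module is nice (over the opposite data) -/
theorem nice_dual (N : Md D k) : N.dual.Nice :=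
  ⟨⟨N.C, N.Q.opop⟩, LinearMap.id, LinearMap.id, fun _ _ => rfl, fun _ _ => rfl, rfl⟩

namespace TT

/-! ### The family of definable subspaces -/

/-- the subspaces defined by terms -/
def IsPT (N : Md D k) (A : Submodule k N.C) : Prop := ∃ t : PT D, t.ev N = A

theorem IsPT.at (N : Md D k) (i : Fin D.nV) : IsPT N (LinearMap.range (N.Q.op (Sum.inl i))) :=
  ⟨PT.at i, Submodule.map_top _⟩

theorem mem_at {N : Md D k} {i : Fin D.nV} {x : N.C} :
    x ∈ LinearMap.range (N.Q.op (Sum.inl i)) ↔ N.Q.op (Sum.inl i) x = x := by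
  constructor
  · rintro ⟨y, rfl⟩
    exact N.Q.idem _ _
  · intro h
    exact ⟨x, h⟩

theorem mem_at' {N : Md D k} {i : Fin D.nV} {x : N.C} :
    x ∈ (PT.at i).ev N ↔ N.Q.op (Sum.inl i) x = x := by
  have : (PT.at i).ev N = LinearMap.range (N.Q.op (Sum.inl i)) := Submodule.map_top _
  rw [this, mem_at]

theorem cfam_of_sat {N : Md D k} (hN : N.Sat) : CFam (IsPT N) where
  bot := ⟨PT.bot, rfl⟩
  inf := by
    rintro A B ⟨s, rfl⟩ ⟨t, rfl⟩
    exact ⟨PT.inf s t, rfl⟩
  sup := by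
    rintro A B ⟨s, rfl⟩ ⟨t, rfl⟩
    exact ⟨PT.sup s t, rfl⟩
  compact := by
    intro A hA y h1 h2
    choose t ht using hA
    obtain ⟨z, hz⟩ := hN t y (fun n => by rw [ht, ht]; exact h1 n) (fun n => by rw [ht]; exact h2 n)
    exact ⟨z, fun m => by have := hz m; rwa [ht] at this⟩

section cl
variable {b : BiS S} {l : ℕ} (hl0 : 0 < l) (hl : b.Per l) {N : Md D k}

theorem pre_isPT (p : ℤ) {A : Submodule k N.C} (hA : IsPT N A) : IsPT N ((brel b hl0 hl N).pre p A) := by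
  obtain ⟨t, rfl⟩ := hA
  cases ht : b.ty p with
  | true =>
    obtain ⟨e0, -, e1, -⟩ := b.edgeT p ht
    refine ⟨.inf (.at (b.v p)) (.comap (Sum.inr (b.ar p)) t), ?_⟩
    ext x
    constructor
    · rintro ⟨h1, h2⟩
      refine ⟨_, h2, mem_brel.2 ⟨mem_at'.1 h1, ?_, fun _ => rfl, fun h => ?_⟩⟩
      · rw [← e1]; exact N.Q.tgt _ _
      · rw [ht] at h; exact absurd h (by decide)
    · rintro ⟨y, hy, hxy⟩
      obtain ⟨h1, h2, h3, -⟩ := mem_brel.1 hxy
      refine ⟨mem_at'.2 h1, ?_⟩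
      show N.Q.op (Sum.inr (b.ar p)) x ∈ t.ev N
      rw [h3 ht]; exact hy
  | false =>
    obtain ⟨e0, -, e1, -⟩ := b.edgeF p ht
    refine ⟨.map (Sum.inr (b.ar p)) (.inf t (.at (b.v (p + 1)))), ?_⟩
    ext x
    constructor
    · rintro ⟨y, ⟨h1, h2⟩, rfl⟩
      refine ⟨y, h1, mem_brel.2 ⟨?_, mem_at'.1 h2, fun h => ?_, fun _ => rfl⟩⟩
      · rw [← e0]; exact N.Q.tgt _ _
      · rw [ht] at h; exact absurd h (by decide)
    · rintro ⟨y, hy, hxy⟩
      obtain ⟨h1, h2, -, h3⟩ := mem_brel.1 hxy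
      exact ⟨y, ⟨hy, mem_at'.2 h2⟩, h3 ht⟩

theorem pre_rev_isPT (p : ℤ) {A : Submodule k N.C} (hA : IsPT N A) :
    IsPT N ((brel b hl0 hl N).rev.pre p A) := by
  obtain ⟨t, rfl⟩ := hA
  set p' := -p - 1 with hp'
  cases ht : b.ty p' with
  | false =>
    obtain ⟨e0, -, e1, -⟩ := b.edgeF p' ht
    refine ⟨.inf (.at (b.v (p' + 1))) (.comap (Sum.inr (b.ar p')) t), ?_⟩
    ext x
    constructor
    · rintro ⟨h1, h2⟩
      refine ⟨_, h2, (BRel.mem_rev _ _ _ _).2 (mem_brel.2 ⟨?_, mem_at'.1 h1, fun h => ?_, fun _ => rfl⟩)⟩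
      · rw [← e0]; exact N.Q.tgt _ _
      · rw [ht] at h; exact absurd h (by decide)
    · rintro ⟨y, hy, hxy⟩
      obtain ⟨h1, h2, -, h3⟩ := mem_brel.1 ((BRel.mem_rev _ _ _ _).1 hxy)
      refine ⟨mem_at'.2 h2, ?_⟩
      show N.Q.op (Sum.inr (b.ar p')) x ∈ t.ev N
      rw [h3 ht]; exact hy
  | true =>
    obtain ⟨e0, -, e1, -⟩ := b.edgeT p' ht
    refine ⟨.map (Sum.inr (b.ar p')) (.inf t (.at (b.v p'))), ?_⟩
    ext x
    constructor
    · rintro ⟨y, ⟨h1, h2⟩, rfl⟩
      refine ⟨y, h1, (BRel.mem_rev _ _ _ _).2 (mem_brel.2 ⟨mem_at'.1 h2, ?_, fun _ => rfl, fun h => ?_⟩)⟩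
      · rw [← e1]; exact N.Q.tgt _ _
      · rw [ht] at h; exact absurd h (by decide)
    · rintro ⟨y, hy, hxy⟩
      obtain ⟨h1, h2, h3, -⟩ := mem_brel.1 ((BRel.mem_rev _ _ _ _).1 hxy)
      exact ⟨y, ⟨hy, mem_at'.2 h1⟩, h3 ht⟩

theorem UR_isPT (m : ℕ) (p : ℤ) : IsPT N ((brel b hl0 hl N).UR m p) := by
  induction m generalizing p with
  | zero => exact IsPT.at N (b.v p)
  | succ m ih => exact pre_isPT hl0 hl p (ih (p + 1))

theorem UR_rev_isPT (m : ℕ) (p : ℤ) : IsPT N ((brel b hl0 hl N).rev.UR m p) := by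
  induction m generalizing p with
  | zero => exact IsPT.at N (b.v (-p))
  | succ m ih => exact pre_rev_isPT hl0 hl p (ih (p + 1))

theorem LR_isPT (m : ℕ) (p : ℤ) : IsPT N ((brel b hl0 hl N).LR m p) := by
  induction m generalizing p with
  | zero => exact ⟨PT.bot, rfl⟩
  | succ m ih => exact pre_isPT hl0 hl p (ih (p + 1))

theorem LR_rev_isPT (m : ℕ) (p : ℤ) : IsPT N ((brel b hl0 hl N).rev.LR m p) := by
  induction m generalizing p with
  | zero => exact ⟨PT.bot, rfl⟩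
  | succ m ih => exact pre_rev_isPT hl0 hl p (ih (p + 1))

theorem Zr_eq (p : ℤ) : (brel b hl0 hl N).Zr p = (brel b hl0 hl N).rev.pre (-p - 1) ⊥ := by
  ext y
  constructor
  · intro h
    refine ⟨0, Submodule.zero_mem _, (BRel.mem_rev _ _ _ _).2 ?_⟩
    rw [show -(-p - 1) - 1 = p by ring]
    exact h
  · rintro ⟨z, hz, hzy⟩
    rw [(Submodule.mem_bot k).1 hz] at hzy
    have := (BRel.mem_rev _ _ _ _).1 hzy
    rw [show -(-p - 1) - 1 = p by ring] at this
    exact this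

theorem Zr_rev_eq (p : ℤ) : (brel b hl0 hl N).rev.Zr p = (brel b hl0 hl N).pre (-p - 1) ⊥ := by
  ext y
  constructor
  · intro h
    exact ⟨0, Submodule.zero_mem _, (BRel.mem_rev _ _ _ _).1 h⟩
  · rintro ⟨z, hz, hzy⟩
    rw [(Submodule.mem_bot k).1 hz] at hzy
    exact (BRel.mem_rev _ _ _ _).2 hzy

/-- the splitting of the chains of a nice module -/
theorem exists_splitT (hN : N.Nice) : ∃ (W : Submodule k[X] (brel b hl0 hl N).QX),
    IsCompl (brel b hl0 hl N).K0 W ∧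
      ∃ ρ : (brel b hl0 hl N).PX →ₗ[k[X]] W, ∀ w : W, ρ ((brel b hl0 hl N).nu w) = w := by
  refine (brel b hl0 hl N).abstractT (cfam_of_sat hN.sat) (UR_isPT hl0 hl) (UR_rev_isPT hl0 hl)
    (fun m => LR_isPT hl0 hl m 0) (fun m => LR_rev_isPT hl0 hl m 0) ?_ ?_ ?_
  · intro p
    rw [Zr_eq]
    exact pre_rev_isPT hl0 hl _ ⟨PT.bot, rfl⟩
  · intro p
    rw [Zr_rev_eq]
    exact pre_isPT hl0 hl _ ⟨PT.bot, rfl⟩
  · intro W' hW' f
    exact pureInj_nice b hl0 hl hN (brel b hl0 hl N).PX W' hW' f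

end cl

end TT

end StrAlg
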