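import Pool.Agent.Lib.MP_b9fd58_lc.T.TC

/-!
# Stream T: action of the arrows on chains; bi-infinite strings as `BiS`
-/

set_option autoImplicit false

namespace StrAlg

namespace TT

open Module Polynomial SAlg

variable {D : Dat} {k : Type} [Field k] {S : Sides D}

/-- sums of periodic functions over a period -/
theorem sum_range_shift {M : Type} [AddCommGroup M] (l : ℕ) (F : ℤ → M) (hF : ∀ p, F (p + l) = F p) :
    ∑ q ∈ Finset.range l, F ((q : ℤ) + 1) = ∑ q ∈ Finset.range l, F (q : ℤ) := by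
  have h1 := Finset.sum_range_succ (fun q : ℕ => F (q : ℤ)) l
  have h2 := Finset.sum_range_succ' (fun q : ℕ => F (q : ℤ)) l
  rw [h1] at h2
  have h3 : F (l : ℤ) = F ((0 : ℕ) : ℤ) := by
    have := hF 0
    rw [zero_add] at this
    rw [this, Nat.cast_zero]
  rw [h3] at h2
  have h4 := add_right_cancel h2
  rw [h4]
  refine Finset.sum_congr rfl ?_
  intro q _
  push_cast
  rfl

/-- action of the arrows on chains along a bi-infinite string -/
theorem chain_op {w : BiS S} {N : Md D k} {n : ℤ → N.C} (hn : BCh w N n)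
    (a : Fin D.nE) (q : ℤ) :
    N.Q.op (Sum.inr a) (n q) = (if w.ty q = true ∧ w.ar q = a then n (q + 1) else 0) +
      (if w.ty (q - 1) = false ∧ w.ar (q - 1) = a then n (q - 1) else 0) := by
  by_cases hv : D.src a = w.v q
  · by_cases hs : S.sS a = w.rs q
    · -- right side
      have h2 : ¬ (w.ty (q - 1) = false ∧ w.ar (q - 1) = a) := by
        rintro ⟨h1, h2⟩
        obtain ⟨-, -, -, h3⟩ := w.edgeF (q - 1) h1
        rw [sub_add_cancel, h2, hs] at h3
        cases hh : w.rs q <;> rw [hh] at h3 <;> exact absurd h3 (by decide)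
      rw [if_neg h2, add_zero]
      cases ht : w.ty q with
      | true =>
        obtain ⟨e1, e2, -, -⟩ := w.edgeT q ht
        have h3 : w.ar q = a := S.src_inj _ _ (by rw [e1, hv]) (by rw [e2, hs])
        rw [if_pos ⟨rfl, h3⟩, ← h3]
        exact hn.eT q ht
      | false =>
        obtain ⟨e1, e2, -, -⟩ := w.edgeF q ht
        rw [if_neg (by rintro ⟨h, -⟩; exact absurd h (by decide))]
        rw [← hn.eF q ht]
        exact rel2 (S := S) N.Q (by rw [e1, hv]) (by rw [e2, hs]) _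
    · -- left side
      have hs' : S.sS a = !(w.rs q) := not_eq_rs hs
      have h2 : ¬ (w.ty q = true ∧ w.ar q = a) := by
        rintro ⟨h1, h2⟩
        obtain ⟨-, h3, -, -⟩ := w.edgeT q h1
        rw [h2] at h3
        exact hs h3
      rw [if_neg h2, zero_add]
      cases ht : w.ty (q - 1) with
      | true =>
        obtain ⟨-, -, e1, e2⟩ := w.edgeT (q - 1) ht
        rw [sub_add_cancel] at e1 e2
        rw [if_neg (by rintro ⟨h, -⟩; exact absurd h (by decide))]
        have h3 := hn.eT (q - 1) ht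
        rw [sub_add_cancel] at h3
        rw [← h3]
        exact rel2 (S := S) N.Q (by rw [e1, hv]) (by rw [e2, hs']) _
      | false =>
        obtain ⟨-, -, e1, e2⟩ := w.edgeF (q - 1) ht
        rw [sub_add_cancel] at e1 e2
        have h3 : w.ar (q - 1) = a := S.src_inj _ _ (by rw [e1, hv]) (by rw [e2, hs'])
        rw [if_pos ⟨rfl, h3⟩, ← h3]
        have h4 := hn.eF (q - 1) ht
        rwa [sub_add_cancel] at h4
  · have h1 : ¬ (w.ty q = true ∧ w.ar q = a) := by
      rintro ⟨h1, h2⟩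
      obtain ⟨h3, -, -, -⟩ := w.edgeT q h1
      rw [h2] at h3
      exact hv h3
    have h2 : ¬ (w.ty (q - 1) = false ∧ w.ar (q - 1) = a) := by
      rintro ⟨h1, h2⟩
      obtain ⟨-, -, h3, -⟩ := w.edgeF (q - 1) h1
      rw [sub_add_cancel, h2] at h3
      exact hv h3
    rw [if_neg h1, if_neg h2, add_zero, ← N.Q.src, ← hn.vtx q, N.Q.orth _ _ _ (Ne.symm hv),
      map_zero]

/-- a linear map from `N` killed by the identifications along a band: action of the arrows -/
theorem dual_op {w : BiS S} {N : Md D k} {V : Type} [AddCommGroup V] [Module k V]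
    {ξ : ℤ → N.C →ₗ[k] V} (hv : ∀ p, ξ p ∘ₗ N.Q.op (Sum.inl (w.v p)) = ξ p)
    (hT : ∀ p x, w.ty p = true → N.Q.op (Sum.inl (w.v p)) x = x →
      ξ (p + 1) (N.Q.op (Sum.inr (w.ar p)) x) = ξ p x)
    (hF : ∀ p x, w.ty p = false → N.Q.op (Sum.inl (w.v (p + 1))) x = x →
      ξ p (N.Q.op (Sum.inr (w.ar p)) x) = ξ (p + 1) x)
    (a : Fin D.nE) (q : ℤ) (x : N.C) :
    ξ q (N.Q.op (Sum.inr a) x) = (if w.ty (q - 1) = true ∧ w.ar (q - 1) = a then ξ (q - 1) x else 0) +
      (if w.ty q = false ∧ w.ar q = a then ξ (q + 1) x else 0) := by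
  have hz : ∀ p y, N.Q.op (Sum.inl (w.v p)) y = 0 → ξ p y = 0 := by
    intro p y h
    rw [← hv p, LinearMap.comp_apply, h, map_zero]
  by_cases hv' : D.tgt a = w.v q
  · by_cases hs : S.sT a = w.rs q
    · -- right side
      have h2 : ¬ (w.ty (q - 1) = true ∧ w.ar (q - 1) = a) := by
        rintro ⟨h1, h2⟩
        obtain ⟨-, -, -, h3⟩ := w.edgeT (q - 1) h1
        rw [sub_add_cancel, h2, hs] at h3
        cases hh : w.rs q <;> rw [hh] at h3 <;> exact absurd h3 (by decide)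
      rw [if_neg h2, zero_add]
      cases ht : w.ty q with
      | false =>
        obtain ⟨e1, e2, e3, -⟩ := w.edgeF q ht
        have h3 : w.ar q = a := S.tgt_inj _ _ (by rw [e1, hv']) (by rw [e2, hs])
        rw [if_pos ⟨rfl, h3⟩, ← h3, ← N.Q.src, e3]
        rw [hF q _ ht (N.Q.idem _ _), ← LinearMap.comp_apply, hv]
      | true =>
        obtain ⟨e1, e2, -, -⟩ := w.edgeT q ht
        rw [if_neg (by rintro ⟨h, -⟩; exact absurd h (by decide))]
        have h4 : N.Q.op (Sum.inl (w.v q)) (N.Q.op (Sum.inr a) x) = N.Q.op (Sum.inr a) x := by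
          rw [← hv']
          exact N.Q.tgt _ _
        rw [← hT q _ ht h4, rel2 (S := S) N.Q (by rw [e1, hv']) (by rw [e2, hs]), map_zero]
    · -- left side
      have hs' : S.sT a = !(w.rs q) := not_eq_rs hs
      have h2 : ¬ (w.ty q = false ∧ w.ar q = a) := by
        rintro ⟨h1, h2⟩
        obtain ⟨-, h3, -, -⟩ := w.edgeF q h1
        rw [h2] at h3
        exact hs h3
      rw [if_neg h2, add_zero]
      cases ht : w.ty (q - 1) with
      | true =>
        obtain ⟨e0, -, e1, e2⟩ := w.edgeT (q - 1) ht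
        rw [sub_add_cancel] at e1 e2
        have h3 : w.ar (q - 1) = a := S.tgt_inj _ _ (by rw [e1, hv']) (by rw [e2, hs'])
        rw [if_pos ⟨rfl, h3⟩, ← h3, ← N.Q.src, e0]
        have h5 := hT (q - 1) (N.Q.op (Sum.inl (w.v (q - 1))) x) ht (N.Q.idem _ _)
        rw [sub_add_cancel] at h5
        rw [h5, ← LinearMap.comp_apply, hv]
      | false =>
        obtain ⟨-, -, e1, e2⟩ := w.edgeF (q - 1) ht
        rw [sub_add_cancel] at e1 e2
        rw [if_neg (by rintro ⟨h, -⟩; exact absurd h (by decide))]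
        have h4 : N.Q.op (Sum.inl (w.v (q - 1 + 1))) (N.Q.op (Sum.inr a) x) = N.Q.op (Sum.inr a) x := by
          rw [sub_add_cancel, ← hv']
          exact N.Q.tgt _ _
        have h5 := hF (q - 1) _ ht h4
        rw [sub_add_cancel] at h5
        rw [← h5, rel2 (S := S) N.Q (by rw [e1, hv']) (by rw [e2, hs']), map_zero]
  · have h1 : ¬ (w.ty (q - 1) = true ∧ w.ar (q - 1) = a) := by
      rintro ⟨h1, h2⟩
      obtain ⟨-, -, h3, -⟩ := w.edgeT (q - 1) h1
      rw [sub_add_cancel, h2] at h3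
      exact hv' h3
    have h2 : ¬ (w.ty q = false ∧ w.ar q = a) := by
      rintro ⟨h1, h2⟩
      obtain ⟨h3, -, -, -⟩ := w.edgeF q h1
      rw [h2] at h3
      exact hv' h3
    rw [if_neg h1, if_neg h2, add_zero]
    apply hz
    rw [← N.Q.tgt, N.Q.orth _ _ _ hv']

/-! ### From strings to `BiS` -/

theorem exists_arrow (w : Str S) (hlam : ∀ p, w.L.lam p ≠ 1) (p : ℤ) : ∃ a : Fin D.nE,
    (w.L.lam p = 2 → D.src a = w.L.v p ∧ S.sS a = w.L.r p ∧ D.tgt a = w.L.v (p + 1) ∧ S.sT a = !(w.L.r (p + 1))) ∧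
    (w.L.lam p = 0 → D.tgt a = w.L.v p ∧ S.sT a = w.L.r p ∧ D.src a = w.L.v (p + 1) ∧
      S.sS a = !(w.L.r (p + 1))) := by
  rcases fin3_cases (hlam p) with h | h
  · have h1 : w.L.lt false (p + 1) = 2 := by
      have h2 := w.L.lt_back true p
      simp only [Bool.not_true, st_true] at h2
      rw [h2]
      show Fin.rev (w.L.lam p) = 2
      rw [h]
      rfl
    obtain ⟨a, h3, h4⟩ := w.ok false (p + 1) h1
    have e1 : st false (p + 1) = p := by simp
    rw [e1] at h4
    have h5 := Sides.outA_some.1 h3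
    have h6 := Sides.inA_some.1 h4
    refine ⟨a, fun h' => ?_, fun _ => ⟨h6.1, h6.2, h5.1, h5.2⟩⟩
    rw [h] at h'
    exact absurd h' (by decide)
  · obtain ⟨a, h3, h4⟩ := w.ok true p h
    have h5 := Sides.outA_some.1 h3
    have h6 := Sides.inA_some.1 h4
    refine ⟨a, fun _ => ⟨h5.1, h5.2, h6.1, h6.2⟩, fun h' => ?_⟩
    rw [h] at h'
    exact absurd h' (by decide)

/-- a bi-infinite string as `BiS` -/
noncomputable def bi (w : Str S) (hlam : ∀ p, w.L.lam p ≠ 1) : BiS S where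
  v := w.L.v
  rs := w.L.r
  ty p := decide (w.L.lam p = 2)
  ar p := (exists_arrow w hlam p).choose
  edgeT p h := (exists_arrow w hlam p).choose_spec.1 (by simpa using h)
  edgeF p h := (exists_arrow w hlam p).choose_spec.2 (by
    have h1 : ¬ w.L.lam p = 2 := by simpa using h
    rcases fin3_cases (hlam p) with h2 | h2
    · exact h2
    · exact absurd h2 h1)

section bi
variable {w : Str S} (hlam : ∀ p, w.L.lam p ≠ 1)

theorem bi_tyT (p : ℤ) : (bi w hlam).ty p = true ↔ w.L.lam p = 2 := by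
  show decide (w.L.lam p = 2) = true ↔ _
  simp

theorem bi_tyF (p : ℤ) : (bi w hlam).ty p = false ↔ w.L.lam p = 0 := by
  show decide (w.L.lam p = 2) = false ↔ _
  constructor
  · intro h
    have h1 : ¬ w.L.lam p = 2 := by simpa using h
    rcases fin3_cases (hlam p) with h2 | h2
    · exact h2
    · exact absurd h2 h1
  · intro h
    simp [h]

theorem bi_outR (p : ℤ) (a : Fin D.nE) : (w.L.lt true p = 2 ∧ S.outA (w.L.v p) (w.L.sd true p) = some a) ↔
    ((bi w hlam).ty p = true ∧ (bi w hlam).ar p = a) := by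
  rw [bi_tyT, Sides.outA_some]
  constructor
  · rintro ⟨h1, h2, h3⟩
    refine ⟨h1, ?_⟩
    obtain ⟨e1, e2, -, -⟩ := (bi w hlam).edgeT p ((bi_tyT hlam p).2 h1)
    exact S.src_inj _ _ (e1.trans h2.symm) (e2.trans h3.symm)
  · rintro ⟨h1, rfl⟩
    obtain ⟨e1, e2, -, -⟩ := (bi w hlam).edgeT p ((bi_tyT hlam p).2 h1)
    exact ⟨h1, e1, e2⟩

theorem rev_eq_two {x : Fin 3} : Fin.rev x = 2 ↔ x = 0 := by revert x; decide
theorem rev_eq_zero {x : Fin 3} : Fin.rev x = 0 ↔ x = 2 := by revert x; decide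

theorem bi_outL (p : ℤ) (a : Fin D.nE) : (w.L.lt false p = 2 ∧ S.outA (w.L.v p) (w.L.sd false p) = some a) ↔
    ((bi w hlam).ty (p - 1) = false ∧ (bi w hlam).ar (p - 1) = a) := by
  rw [bi_tyF, Sides.outA_some]
  have e0 : w.L.lt false p = Fin.rev (w.L.lam (p - 1)) := rfl
  rw [e0, rev_eq_two]
  have e3 : w.L.sd false p = !(w.L.r p) := rfl
  rw [e3]
  constructor
  · rintro ⟨h1, h2, h3⟩
    refine ⟨h1, ?_⟩
    obtain ⟨-, -, e1, e2⟩ := (bi w hlam).edgeF (p - 1) ((bi_tyF hlam _).2 h1)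
    rw [sub_add_cancel] at e1 e2
    exact S.src_inj _ _ (e1.trans h2.symm) (e2.trans h3.symm)
  · rintro ⟨h1, rfl⟩
    obtain ⟨-, -, e1, e2⟩ := (bi w hlam).edgeF (p - 1) ((bi_tyF hlam _).2 h1)
    rw [sub_add_cancel] at e1 e2
    exact ⟨h1, e1, e2⟩

theorem bi_inR (p : ℤ) (a : Fin D.nE) : (w.L.lt true p = 0 ∧ S.inA (w.L.v p) (w.L.sd true p) = some a) ↔
    ((bi w hlam).ty p = false ∧ (bi w hlam).ar p = a) := by
  rw [bi_tyF, Sides.inA_some]
  constructor
  · rintro ⟨h1, h2, h3⟩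
    refine ⟨h1, ?_⟩
    obtain ⟨e1, e2, -, -⟩ := (bi w hlam).edgeF p ((bi_tyF hlam p).2 h1)
    exact S.tgt_inj _ _ (e1.trans h2.symm) (e2.trans h3.symm)
  · rintro ⟨h1, rfl⟩
    obtain ⟨e1, e2, -, -⟩ := (bi w hlam).edgeF p ((bi_tyF hlam p).2 h1)
    exact ⟨h1, e1, e2⟩

theorem bi_inL (p : ℤ) (a : Fin D.nE) : (w.L.lt false p = 0 ∧ S.inA (w.L.v p) (w.L.sd false p) = some a) ↔
    ((bi w hlam).ty (p - 1) = true ∧ (bi w hlam).ar (p - 1) = a) := by
  rw [bi_tyT, Sides.inA_some]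
  have e0 : w.L.lt false p = Fin.rev (w.L.lam (p - 1)) := rfl
  rw [e0, rev_eq_zero]
  have e3 : w.L.sd false p = !(w.L.r p) := rfl
  rw [e3]
  constructor
  · rintro ⟨h1, h2, h3⟩
    refine ⟨h1, ?_⟩
    obtain ⟨-, -, e1, e2⟩ := (bi w hlam).edgeT (p - 1) ((bi_tyT hlam _).2 h1)
    rw [sub_add_cancel] at e1 e2
    exact S.tgt_inj _ _ (e1.trans h2.symm) (e2.trans h3.symm)
  · rintro ⟨h1, rfl⟩
    obtain ⟨-, -, e1, e2⟩ := (bi w hlam).edgeT (p - 1) ((bi_tyT hlam _).2 h1)
    rw [sub_add_cancel] at e1 e2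
    exact ⟨h1, e1, e2⟩

/-- the operators on functions -/
theorem fop_bi {V : Type} [AddCommGroup V] [Module k V] (a : Fin D.nE) (m : ℤ → V) (p : ℤ) :
    fop k S.ends w.L (Sum.inr a) m p =
      (if (bi w hlam).ty (p - 1) = true ∧ (bi w hlam).ar (p - 1) = a then m (p - 1) else 0) +
      (if (bi w hlam).ty p = false ∧ (bi w hlam).ar p = a then m (p + 1) else 0) := by
  rw [fop_inr, Fintype.sum_bool, add_comm]
  congr 1
  · exact if_congr (bi_inL hlam p a) rfl rfl
  · exact if_congr (bi_inR hlam p a) rfl rfl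

theorem Q_bi {N : Md D k} {n : ℤ → N.C} : n ∈ w.Q N ↔ BCh (bi w hlam) N n := by
  have hZ := w.Z_univ hlam
  constructor
  · rintro ⟨h, -⟩
    refine ⟨fun p => ?_, fun p ht => ?_, fun p ht => ?_⟩
    · have h1 := (h p).1 (w.L.v p)
      rw [if_pos rfl] at h1
      exact h1
    · have h1 := (h p).2 ((bi w hlam).ar p)
      rw [Fintype.sum_bool] at h1
      rw [h1]
      have h2 : w.L.lt true p = 2 ∧ S.ends.outA (w.L.v p) (w.L.sd true p) = some ((bi w hlam).ar p) :=
        (bi_outR hlam p ((bi w hlam).ar p)).2 ⟨ht, rfl⟩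
      rw [if_pos h2, if_neg, add_zero]
      · rfl
      · rintro ⟨-, h3⟩
        have h4 := (Sides.outA_some.1 h3).2
        have h5 := (Sides.outA_some.1 h2.2).2
        have h6 := Ln.sd_inj (h4.symm.trans h5)
        exact absurd h6 (by decide)
    · have h1 := (h (p + 1)).2 ((bi w hlam).ar p)
      rw [Fintype.sum_bool] at h1
      rw [h1]
      have h2 : w.L.lt false (p + 1) = 2 ∧ S.ends.outA (w.L.v (p + 1)) (w.L.sd false (p + 1)) =
          some ((bi w hlam).ar p) :=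
        (bi_outL hlam (p + 1) ((bi w hlam).ar p)).2 (by rw [add_sub_cancel_right]; exact ⟨ht, rfl⟩)
      have e1 : st false (p + 1) = p := by simp
      rw [if_pos h2, if_neg, zero_add, e1]
      rintro ⟨-, h3⟩
      have h4 := (Sides.outA_some.1 h3).2
      have h5 := (Sides.outA_some.1 h2.2).2
      have h6 := Ln.sd_inj (h4.symm.trans h5)
      exact absurd h6 (by decide)
  · intro h
    refine ⟨fun p => ⟨fun i => ?_, fun a => ?_⟩, fun p hp => absurd (hZ p) hp⟩
    · by_cases hi : w.L.v p = i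
      · rw [if_pos hi, ← hi]
        exact h.vtx p
      · rw [if_neg hi]
        have h1 := h.vtx p
        rw [← h1]
        exact N.Q.orth _ _ _ hi
    · rw [chain_op h, Fintype.sum_bool]
      congr 1
      · exact if_congr (bi_outR hlam p a).symm rfl rfl
      · exact if_congr (bi_outL hlam p a).symm rfl rfl

theorem bi_per {l : ℕ} (hl : w.Per l) : (bi w hlam).Per l := by
  intro p
  have h1 := hl.1.v p
  have h2 := hl.1.r p
  have h3 := hl.1.lam p
  have h1' := hl.1.v (p + 1)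
  have h2' := hl.1.r (p + 1)
  have e : p + 1 + (l : ℤ) = p + l + 1 := by ring
  rw [e] at h1' h2'
  have hty : (bi w hlam).ty (p + l) = (bi w hlam).ty p := by
    show decide (w.L.lam (p + l) = 2) = decide (w.L.lam p = 2)
    rw [h3]
  refine ⟨h1, h2, hty, ?_⟩
  cases ht : (bi w hlam).ty p with
  | true =>
    obtain ⟨a1, a2, a3, a4⟩ := (bi w hlam).edgeT p ht
    obtain ⟨b1, b2, b3, b4⟩ := (bi w hlam).edgeT (p + l) (hty.trans ht)
    exact S.src_inj _ _ (b1.trans (h1.trans a1.symm)) (b2.trans (h2.trans a2.symm))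
  | false =>
    obtain ⟨a1, a2, a3, a4⟩ := (bi w hlam).edgeF p ht
    obtain ⟨b1, b2, b3, b4⟩ := (bi w hlam).edgeF (p + l) (hty.trans ht)
    exact S.tgt_inj _ _ (b1.trans (h1.trans a1.symm)) (b2.trans (h2.trans a2.symm))

theorem per_of_bi {l : ℕ} (hl : (bi w hlam).Per l) : w.Per l := by
  refine ⟨⟨fun p => ?_, fun p => (hl p).1, fun p => (hl p).2.1⟩, hlam⟩
  have h1 := (hl p).2.2.1
  cases ht : (bi w hlam).ty p with
  | true => rw [(bi_tyT hlam p).1 ht, (bi_tyT hlam (p + l)).1 (h1.trans ht)]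
  | false => rw [(bi_tyF hlam p).1 ht, (bi_tyF hlam (p + l)).1 (h1.trans ht)]

theorem bi_min {l : ℕ} (hl : w.MinPer l) : (bi w hlam).MinPer l :=
  ⟨hl.1, bi_per hlam hl.2.1, fun d hd h => hl.2.2 d hd (per_of_bi hlam h)⟩

end bi

end TT

end StrAlg
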