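import Pool.Agent.Lib.MP_b9fd58_lc.IfDefs
import Pool.Agent.Lib.MP_b9fd58_lc.R.RelF

/-!
# Stream T: bi-infinite strings, their chains, the periodic sequence of linear relations of a module and a band
-/

set_option autoImplicit false

namespace StrAlg

namespace TT

open Module Polynomial SAlg

variable {D : Dat} {k : Type} [Field k] {S : Sides D}

/-- A bi-infinite string: the arrow `ar p` points from `p` to `p + 1` if `ty p = true`, from `p + 1` to `p` otherwise. -/
structure BiS (S : Sides D) where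
  v : ℤ → Fin D.nV
  rs : ℤ → Bool
  ty : ℤ → Bool
  ar : ℤ → Fin D.nE
  edgeT : ∀ p, ty p = true →
    D.src (ar p) = v p ∧ S.sS (ar p) = rs p ∧ D.tgt (ar p) = v (p + 1) ∧ S.sT (ar p) = !(rs (p + 1))
  edgeF : ∀ p, ty p = false →
    D.tgt (ar p) = v p ∧ S.sT (ar p) = rs p ∧ D.src (ar p) = v (p + 1) ∧ S.sS (ar p) = !(rs (p + 1))

/-- translation invariance -/
def BiS.Per (w : BiS S) (d : ℤ) : Prop :=
  ∀ p, w.v (p + d) = w.v p ∧ w.rs (p + d) = w.rs p ∧ w.ty (p + d) = w.ty p ∧ w.ar (p + d) = w.ar p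

/-- minimal period -/
def BiS.MinPer (w : BiS S) (l : ℕ) : Prop := 0 < l ∧ w.Per l ∧ ∀ d : ℕ, 0 < d → w.Per d → l ≤ d

/-- chains -/
structure BCh (w : BiS S) (N : Md D k) (n : ℤ → N.C) : Prop where
  vtx : ∀ p, N.Q.op (Sum.inl (w.v p)) (n p) = n p
  eT : ∀ p, w.ty p = true → N.Q.op (Sum.inr (w.ar p)) (n p) = n (p + 1)
  eF : ∀ p, w.ty p = false → N.Q.op (Sum.inr (w.ar p)) (n (p + 1)) = n p

/-- dual chains -/
structure BDCh (w : BiS S) (N : Md D k) {V : Type} [AddCommGroup V] [Module k V] (ξ : ℤ → (N.C →ₗ[k] V)) : Prop where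
  vtx : ∀ p, ξ p ∘ₗ N.Q.op (Sum.inl (w.v p)) = ξ p
  eT : ∀ p, w.ty p = true → ξ (p + 1) ∘ₗ N.Q.op (Sum.inr (w.ar p)) = ξ p
  eF : ∀ p, w.ty p = false → ξ p ∘ₗ N.Q.op (Sum.inr (w.ar p)) = ξ (p + 1)

/-- the sequence of relations of a module and a band -/
def brel (w : BiS S) {l : ℕ} (hl0 : 0 < l) (hl : w.Per l) (N : Md D k) : BRel k N.C where
  l := l
  l_pos := hl0
  e p := N.Q.op (Sum.inl (w.v p))
  R p :=
    { carrier := {z | N.Q.op (Sum.inl (w.v p)) z.1 = z.1 ∧ N.Q.op (Sum.inl (w.v (p + 1))) z.2 = z.2 ∧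
        (w.ty p = true → N.Q.op (Sum.inr (w.ar p)) z.1 = z.2) ∧
        (w.ty p = false → N.Q.op (Sum.inr (w.ar p)) z.2 = z.1)}
      add_mem' := by
        rintro ⟨a, b⟩ ⟨c, d⟩ ⟨h1, h2, h3, h4⟩ ⟨h1', h2', h3', h4'⟩
        refine ⟨?_, ?_, fun h => ?_, fun h => ?_⟩
        · simp only [Prod.mk_add_mk, map_add, h1, h1']
        · simp only [Prod.mk_add_mk, map_add, h2, h2']
        · simp only [Prod.mk_add_mk, map_add, h3 h, h3' h]
        · simp only [Prod.mk_add_mk, map_add, h4 h, h4' h]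
      zero_mem' := by simp
      smul_mem' := by
        rintro c ⟨a, b⟩ ⟨h1, h2, h3, h4⟩
        refine ⟨?_, ?_, fun h => ?_, fun h => ?_⟩
        · simp only [Prod.smul_mk, map_smul, h1]
        · simp only [Prod.smul_mk, map_smul, h2]
        · simp only [Prod.smul_mk, map_smul, h3 h]
        · simp only [Prod.smul_mk, map_smul, h4 h] }
  e_idem p x := N.Q.idem _ _
  e_per p := by rw [(hl p).1]
  R_per p := by
    have h1 : w.v (p + l + 1) = w.v (p + 1) := by
      rw [show p + (l : ℤ) + 1 = (p + 1) + l by ring, (hl (p + 1)).1]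
    ext z
    simp only [Submodule.mem_mk, AddSubmonoid.mem_mk, AddSubsemigroup.mem_mk, Set.mem_ofPred_eq, (hl p).1,
      (hl p).2.2.1, (hl p).2.2.2, h1]
  R_left p x y h := h.1
  R_right p x y h := h.2.1

theorem mem_brel {w : BiS S} {l : ℕ} {hl0 : 0 < l} {hl : w.Per l} {N : Md D k} {p : ℤ} {x y : N.C} :
    (x, y) ∈ (brel w hl0 hl N).R p ↔ N.Q.op (Sum.inl (w.v p)) x = x ∧ N.Q.op (Sum.inl (w.v (p + 1))) y = y ∧
        (w.ty p = true → N.Q.op (Sum.inr (w.ar p)) x = y) ∧
        (w.ty p = false → N.Q.op (Sum.inr (w.ar p)) y = x) := Iff.rfl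

theorem BCh_iff {w : BiS S} {l : ℕ} (hl0 : 0 < l) (hl : w.Per l) (N : Md D k) (n : ℤ → N.C) :
    BCh w N n ↔ n ∈ (brel w hl0 hl N).Ch := by
  rw [BRel.mem_Ch]
  constructor
  · intro h p
    exact mem_brel.2 ⟨h.vtx p, h.vtx (p + 1), h.eT p, h.eF p⟩
  · intro h
    exact ⟨fun p => (mem_brel.1 (h p)).1, fun p => (mem_brel.1 (h p)).2.2.1, fun p => (mem_brel.1 (h p)).2.2.2⟩

/-! ### The relations of a dual module -/

section dual
variable {Y : Type} [AddCommGroup Y] [Module k Y] (s : D.Gen → Y →ₗ[k] Y) (Q : QMod D k (Dual k Y))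
  (hQ : ∀ g, Q.op g = (s g).dualMap)

include hQ in
theorem op_op (g h : D.Gen) (x : Y) (n : Dual k Y) : Q.op h (Q.op g n) x = n (s g (s h x)) := by
  rw [hQ, hQ]
  rfl

theorem eq_of_dual {x y : Y} (h : ∀ n : Dual k Y, n x = n y) : x = y := by
  have h1 : Dual.eval k Y x = Dual.eval k Y y := LinearMap.ext h
  exact Module.eval_apply_injective k h1

include hQ in
theorem s_idem (i : Fin D.nV) (x : Y) : s (Sum.inl i) (s (Sum.inl i) x) = s (Sum.inl i) x := by
  apply eq_of_dual (k := k)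
  intro n
  have h := LinearMap.congr_fun (Q.idem i n) x
  rw [op_op s Q hQ, hQ] at h
  exact h

include hQ in
theorem s_src (a : Fin D.nE) (x : Y) : s (Sum.inl (D.src a)) (s (Sum.inr a) x) = s (Sum.inr a) x := by
  apply eq_of_dual (k := k)
  intro n
  have h := LinearMap.congr_fun (Q.src a n) x
  rw [op_op s Q hQ, hQ] at h
  exact h

include hQ in
theorem s_tgt (a : Fin D.nE) (x : Y) : s (Sum.inr a) (s (Sum.inl (D.tgt a)) x) = s (Sum.inr a) x := by
  apply eq_of_dual (k := k)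
  intro n
  have h := LinearMap.congr_fun (Q.tgt a n) x
  rw [op_op s Q hQ, hQ] at h
  exact h

/-- the relations on the predual -/
def brelY (w : BiS S) {l : ℕ} (hl0 : 0 < l) (hl : w.Per l) : BRel k Y where
  l := l
  l_pos := hl0
  e p := s (Sum.inl (w.v p))
  R p :=
    { carrier := {z | s (Sum.inl (w.v p)) z.1 = z.1 ∧ s (Sum.inl (w.v (p + 1))) z.2 = z.2 ∧
        (w.ty p = true → s (Sum.inr (w.ar p)) z.2 = z.1) ∧
        (w.ty p = false → s (Sum.inr (w.ar p)) z.1 = z.2)}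
      add_mem' := by
        rintro ⟨a, b⟩ ⟨c, d⟩ ⟨h1, h2, h3, h4⟩ ⟨h1', h2', h3', h4'⟩
        refine ⟨?_, ?_, fun h => ?_, fun h => ?_⟩
        · simp only [Prod.mk_add_mk, map_add, h1, h1']
        · simp only [Prod.mk_add_mk, map_add, h2, h2']
        · simp only [Prod.mk_add_mk, map_add, h3 h, h3' h]
        · simp only [Prod.mk_add_mk, map_add, h4 h, h4' h]
      zero_mem' := by simp
      smul_mem' := by
        rintro c ⟨a, b⟩ ⟨h1, h2, h3, h4⟩
        refine ⟨?_, ?_, fun h => ?_, fun h => ?_⟩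
        · simp only [Prod.smul_mk, map_smul, h1]
        · simp only [Prod.smul_mk, map_smul, h2]
        · simp only [Prod.smul_mk, map_smul, h3 h]
        · simp only [Prod.smul_mk, map_smul, h4 h] }
  e_idem p x := s_idem s Q hQ _ _
  e_per p := by rw [(hl p).1]
  R_per p := by
    have h1 : w.v (p + l + 1) = w.v (p + 1) := by
      rw [show p + (l : ℤ) + 1 = (p + 1) + l by ring, (hl (p + 1)).1]
    ext z
    simp only [Submodule.mem_mk, AddSubmonoid.mem_mk, AddSubsemigroup.mem_mk, Set.mem_ofPred_eq, (hl p).1,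
      (hl p).2.2.1, (hl p).2.2.2, h1]
  R_left p x y h := h.1
  R_right p x y h := h.2.1

theorem brelY_dual_mem (w : BiS S) {l : ℕ} (hl0 : 0 < l) (hl : w.Per l) (p : ℤ) (a b : Dual k Y) :
    (a, b) ∈ (brelY s Q hQ w hl0 hl).dual.R p ↔
      (a, b) ∈ (brel w hl0 hl (⟨Dual k Y, Q⟩ : Md D k)).R p := by
  rw [BRel.mem_dual]
  have he : ∀ (n : Dual k Y) (i : Fin D.nV), (Q.op (Sum.inl i) n = n ↔ ∀ x, n (s (Sum.inl i) x) = n x) := by
    intro n i
    rw [hQ]
    constructor
    · intro h x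
      exact LinearMap.congr_fun h x
    · intro h
      exact LinearMap.ext h
  constructor
  · rintro ⟨h1, h2, h3⟩
    refine ⟨(he _ _).2 h2, (he _ _).2 h3, fun ht => ?_, fun ht => ?_⟩
    · obtain ⟨e1, -, e2, -⟩ := w.edgeT p ht
      show Q.op (Sum.inr (w.ar p)) a = b
      rw [hQ]
      refine LinearMap.ext fun y => ?_
      show a (s (Sum.inr (w.ar p)) y) = b y
      have h4 : ((s (Sum.inr (w.ar p)) (s (Sum.inl (D.tgt (w.ar p))) y), s (Sum.inl (D.tgt (w.ar p))) y) : Y × Y) ∈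
          (brelY s Q hQ w hl0 hl).R p := by
        refine ⟨?_, ?_, fun _ => rfl, fun h => ?_⟩
        · show s (Sum.inl (w.v p)) _ = _
          rw [← e1]
          exact s_src s Q hQ _ _
        · show s (Sum.inl (w.v (p + 1))) _ = _
          rw [← e2]
          exact s_idem s Q hQ _ _
        · rw [ht] at h; exact absurd h (by decide)
      have h5 := h1 _ _ h4
      rw [s_tgt s Q hQ] at h5
      rw [h5, e2]
      exact h3 y
    · obtain ⟨e1, -, e2, -⟩ := w.edgeF p ht
      show Q.op (Sum.inr (w.ar p)) b = a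
      rw [hQ]
      refine LinearMap.ext fun y => ?_
      show b (s (Sum.inr (w.ar p)) y) = a y
      have h4 : ((s (Sum.inl (D.tgt (w.ar p))) y, s (Sum.inr (w.ar p)) (s (Sum.inl (D.tgt (w.ar p))) y)) : Y × Y) ∈
          (brelY s Q hQ w hl0 hl).R p := by
        refine ⟨?_, ?_, fun h => ?_, fun _ => rfl⟩
        · show s (Sum.inl (w.v p)) _ = _
          rw [← e1]
          exact s_idem s Q hQ _ _
        · show s (Sum.inl (w.v (p + 1))) _ = _
          rw [← e2]
          exact s_src s Q hQ _ _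
        · rw [ht] at h; exact absurd h (by decide)
      have h5 := h1 _ _ h4
      rw [s_tgt s Q hQ] at h5
      rw [← h5, e1]
      exact h2 y
  · rintro ⟨h1, h2, h3, h4⟩
    refine ⟨fun x y hxy => ?_, (he _ _).1 h1, (he _ _).1 h2⟩
    obtain ⟨g1, g2, g3, g4⟩ := hxy
    cases ht : w.ty p with
    | true =>
      have h5 : b = Q.op (Sum.inr (w.ar p)) a := (h3 ht).symm
      have h6 : x = s (Sum.inr (w.ar p)) y := (g3 ht).symm
      rw [h5, h6, hQ]
      rfl
    | false =>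
      have h5 : a = Q.op (Sum.inr (w.ar p)) b := (h4 ht).symm
      have h6 : y = s (Sum.inr (w.ar p)) x := (g4 ht).symm
      rw [h5, h6, hQ]
      rfl

end dual

/-! ### Pure injectivity of the chains in nice modules -/

/-- transfer of pure injectivity along retractions of chain modules -/
theorem pureInj_transfer {N M : Type} [AddCommGroup N] [Module k N] [AddCommGroup M] [Module k M]
    (B : BRel k N) (B' : BRel k M) (hl : B.l = B'.l) (i : M →ₗ[k] N) (r : N →ₗ[k] M)
    (hi : ∀ p x y, (x, y) ∈ B'.R p → (i x, i y) ∈ B.R p) (hr : ∀ p x y, (x, y) ∈ B.R p → (r x, r y) ∈ B'.R p)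
    (hri : ∀ x, r (i x) = x) (h : PureInj k B.QX) : PureInj k B'.QX := by
  let ι₀ : B'.QX →ₗ[k] B.QX :=
    { toFun := fun x => B.mkQ (fun p => i (B'.val x p)) (fun p => hi p _ _ (B'.val_rel x p))
      map_add' := fun x y => B.ext_val fun p => by
        rw [BRel.val_add, BRel.val_mkQ, BRel.val_mkQ, BRel.val_mkQ, BRel.val_add, map_add]
      map_smul' := fun c x => B.ext_val fun p => by
        rw [RingHom.id_apply, BRel.val_smul, BRel.val_mkQ, BRel.val_mkQ, BRel.val_smul, map_smul] }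
  let ρ₀ : B.QX →ₗ[k] B'.QX :=
    { toFun := fun x => B'.mkQ (fun p => r (B.val x p)) (fun p => hr p _ _ (B.val_rel x p))
      map_add' := fun x y => B'.ext_val fun p => by
        rw [BRel.val_add, BRel.val_mkQ, BRel.val_mkQ, BRel.val_mkQ, BRel.val_add, map_add]
      map_smul' := fun c x => B'.ext_val fun p => by
        rw [RingHom.id_apply, BRel.val_smul, BRel.val_mkQ, BRel.val_mkQ, BRel.val_smul, map_smul] }
  have h1 : ∀ x p, B.val (ι₀ x) p = i (B'.val x p) := fun x p => BRel.val_mkQ _ _ _ _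
  have h2 : ∀ x p, B'.val (ρ₀ x) p = r (B.val x p) := fun x p => BRel.val_mkQ _ _ _ _
  refine h.retract (ofX ι₀ fun m => B.ext_val fun p => ?_) (ofX ρ₀ fun m => B'.ext_val fun p => ?_)
    (fun x => B'.ext_val fun p => ?_)
  · rw [h1, BRel.val_X, BRel.val_X, h1, hl]
  · rw [h2, BRel.val_X, BRel.val_X, h2, hl]
  · rw [ofX_apply, h2, ofX_apply, h1, hri]

theorem pureInj_nice (w : BiS S) {l : ℕ} (hl0 : 0 < l) (hl : w.Per l) {N : Md D k} (hN : N.Nice) :
    PureInj k (brel w hl0 hl N).QX := by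
  obtain ⟨X, i, r, hi, hr, hri⟩ := hN
  have hri' : ∀ x, r (i x) = x := fun x => LinearMap.congr_fun hri x
  -- the predual
  have hQ : ∀ g : D.Gen, X.Q.codual.op g = (X.Q.op g).dualMap := fun _ => rfl
  refine pureInj_transfer (N := Dual k X.C) (brelY (D := D) (fun g => X.Q.op g) X.Q.codual hQ w hl0 hl).dual
    (brel w hl0 hl N) rfl i r ?_ ?_ hri' ?_
  · intro p x y hxy
    rw [brelY_dual_mem]
    obtain ⟨h1, h2, h3, h4⟩ := mem_brel.1 hxy
    refine ⟨?_, ?_, fun ht => ?_, fun ht => ?_⟩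
    · exact (hi _ _).symm.trans (congrArg i h1)
    · exact (hi _ _).symm.trans (congrArg i h2)
    · exact (hi _ _).symm.trans (congrArg i (h3 ht))
    · exact (hi _ _).symm.trans (congrArg i (h4 ht))
  · intro p x y hxy
    rw [brelY_dual_mem] at hxy
    obtain ⟨h1, h2, h3, h4⟩ := hxy
    refine mem_brel.2 ⟨?_, ?_, fun ht => ?_, fun ht => ?_⟩
    · exact (hr _ _).symm.trans (congrArg r h1)
    · exact (hr _ _).symm.trans (congrArg r h2)
    · exact (hr _ _).symm.trans (congrArg r (h3 ht))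
    · exact (hr _ _).symm.trans (congrArg r (h4 ht))
  · intro P _ _ _ _ W hW f
    exact (brelY (D := D) (fun g => X.Q.op g) X.Q.codual hQ w hl0 hl).pureInj_dual P W hW f

end TT

end StrAlg
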