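import Pool.Agent.Lib.MP_b9fd58_lc.T.TB

/-!
# Stream T: walking along bi-infinite strings, symmetries, kernels of chains and dual chains
-/

set_option autoImplicit false

namespace StrAlg

namespace TT

open Module

variable {D : Dat} {k : Type} [Field k] {S : Sides D}

/-- letter read from the position `p` to the right -/
def BiS.lR (w : BiS S) (p : ℤ) : Fin 3 := if w.ty p then 2 else 0
/-- letter read from the position `p` to the left -/
def BiS.lL (w : BiS S) (p : ℤ) : Fin 3 := if w.ty (p - 1) then 0 else 2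
/-- the word read from `p` on the side `s` -/
def BiS.wd (w : BiS S) (p : ℤ) (s : Bool) : Wd := fun n => if s = w.rs p then w.lR (p + n) else w.lL (p - n)
/-- strict lexicographic order -/
def WLt (u v : Wd) : Prop := ∃ n, (∀ m < n, u m = v m) ∧ u n < v n
/-- weak lexicographic order -/
def WLw (u v : Wd) : Prop := u = v ∨ WLt u v

/-- next position on the side `s` -/
def nx (w : BiS S) (p : ℤ) (s : Bool) : ℤ := if s = w.rs p then p + 1 else p - 1
/-- the side on which one leaves the next position -/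
def ns (w : BiS S) (p : ℤ) (s : Bool) : Bool := if s = w.rs p then w.rs (p + 1) else !(w.rs (p - 1))
/-- the arrow on the side `s` of `p` -/
def ga (w : BiS S) (p : ℤ) (s : Bool) : Fin D.nE := if s = w.rs p then w.ar p else w.ar (p - 1)

section inf
variable {w : BiS S}

theorem lR_inf (p : ℤ) : w.lR p = if w.ty p then 2 else 0 := rfl

theorem lL_inf (p : ℤ) : w.lL p = if w.ty (p - 1) then 0 else 2 := rfl

theorem wd_inf (p : ℤ) (s : Bool) (n : ℕ) : w.wd p s n = 2 ∨ w.wd p s n = 0 := by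
  unfold BiS.wd
  split_ifs with h
  · rw [lR_inf]
    split_ifs
    · exact Or.inl rfl
    · exact Or.inr rfl
  · rw [lL_inf]
    split_ifs
    · exact Or.inr rfl
    · exact Or.inl rfl

theorem wd_succ' (w : BiS S) (p : ℤ) (s : Bool) (n : ℕ) : w.wd p s (n + 1) = w.wd (nx w p s) (ns w p s) n := by
  unfold BiS.wd nx ns
  by_cases h : s = w.rs p
  · rw [if_pos h, if_pos h, if_pos h, if_pos rfl]
    congr 1
    push_cast
    ring
  · rw [if_neg h, if_neg h, if_neg h, if_neg (by simp)]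
    congr 1
    push_cast
    ring

theorem wd_tail (w : BiS S) (p : ℤ) (s : Bool) : (w.wd p s).sh = w.wd (nx w p s) (ns w p s) := by
  funext n
  exact wd_succ' w p s n

theorem wd_zero_R {p : ℤ} : w.wd p (w.rs p) 0 = if w.ty p then 2 else 0 := by
  unfold BiS.wd
  rw [if_pos rfl, Nat.cast_zero, add_zero, lR_inf]

theorem wd_zero_L {p : ℤ} {s : Bool} (h : ¬ s = w.rs p) : w.wd p s 0 = if w.ty (p - 1) then 0 else 2 := by
  unfold BiS.wd
  rw [if_neg h, Nat.cast_zero, sub_zero, lL_inf]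

theorem not_eq_rs {s t : Bool} (h : ¬ s = t) : s = !t := by
  revert s t
  decide

theorem step_out (p : ℤ) (s : Bool) (h : w.wd p s 0 = 2) :
    D.src (ga w p s) = w.v p ∧ S.sS (ga w p s) = s ∧ D.tgt (ga w p s) = w.v (nx w p s) ∧
      S.sT (ga w p s) = !(ns w p s) := by
  unfold ga nx ns
  by_cases hs : s = w.rs p
  · rw [if_pos hs, if_pos hs, if_pos hs]
    subst hs
    rw [wd_zero_R] at h
    have ht : w.ty p = true := by
      by_contra hc
      rw [if_neg hc] at h
      exact absurd h (by decide)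
    exact w.edgeT p ht
  · rw [if_neg hs, if_neg hs, if_neg hs]
    rw [wd_zero_L hs] at h
    have ht : w.ty (p - 1) = false := by
      by_contra hc
      rw [if_pos (by simpa using hc)] at h
      exact absurd h (by decide)
    obtain ⟨h1, h2, h3, h4⟩ := w.edgeF (p - 1) ht
    rw [sub_add_cancel] at h3 h4
    exact ⟨h3, by rw [h4]; exact (not_eq_rs hs).symm, h1, by rw [h2, Bool.not_not]⟩

theorem step_in (p : ℤ) (s : Bool) (h : w.wd p s 0 = 0) :
    D.tgt (ga w p s) = w.v p ∧ S.sT (ga w p s) = s ∧ D.src (ga w p s) = w.v (nx w p s) ∧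
      S.sS (ga w p s) = !(ns w p s) := by
  unfold ga nx ns
  by_cases hs : s = w.rs p
  · rw [if_pos hs, if_pos hs, if_pos hs]
    subst hs
    rw [wd_zero_R] at h
    have ht : w.ty p = false := by
      by_contra hc
      rw [if_pos (by simpa using hc)] at h
      exact absurd h (by decide)
    exact w.edgeF p ht
  · rw [if_neg hs, if_neg hs, if_neg hs]
    rw [wd_zero_L hs] at h
    have ht : w.ty (p - 1) = true := by
      by_contra hc
      rw [if_neg hc] at h
      exact absurd h (by decide)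
    obtain ⟨h1, h2, h3, h4⟩ := w.edgeT (p - 1) ht
    rw [sub_add_cancel] at h3 h4
    exact ⟨h3, by rw [h4]; exact (not_eq_rs hs).symm, h1, by rw [h2, Bool.not_not]⟩

section ch
variable {N : Md D k}

theorem ch_out {n : ℤ → N.C} (hn : BCh w N n) (p : ℤ) (s : Bool) (h : w.wd p s 0 = 2) :
    N.Q.op (Sum.inr (ga w p s)) (n p) = n (nx w p s) := by
  unfold ga nx
  by_cases hs : s = w.rs p
  · rw [if_pos hs, if_pos hs]
    subst hs
    rw [wd_zero_R] at h
    have ht : w.ty p = true := by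
      by_contra hc
      rw [if_neg hc] at h
      exact absurd h (by decide)
    exact hn.eT p ht
  · rw [if_neg hs, if_neg hs]
    rw [wd_zero_L hs] at h
    have ht : w.ty (p - 1) = false := by
      by_contra hc
      rw [if_pos (by simpa using hc)] at h
      exact absurd h (by decide)
    have h1 := hn.eF (p - 1) ht
    rwa [sub_add_cancel] at h1

theorem ch_in {n : ℤ → N.C} (hn : BCh w N n) (p : ℤ) (s : Bool) (h : w.wd p s 0 = 0) :
    N.Q.op (Sum.inr (ga w p s)) (n (nx w p s)) = n p := by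
  unfold ga nx
  by_cases hs : s = w.rs p
  · rw [if_pos hs, if_pos hs]
    subst hs
    rw [wd_zero_R] at h
    have ht : w.ty p = false := by
      by_contra hc
      rw [if_pos (by simpa using hc)] at h
      exact absurd h (by decide)
    exact hn.eF p ht
  · rw [if_neg hs, if_neg hs]
    rw [wd_zero_L hs] at h
    have ht : w.ty (p - 1) = true := by
      by_contra hc
      rw [if_neg hc] at h
      exact absurd h (by decide)
    have h1 := hn.eT (p - 1) ht
    rwa [sub_add_cancel] at h1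

variable {V : Type} [AddCommGroup V] [Module k V]

theorem dch_out {ξ : ℤ → N.C →ₗ[k] V} (hn : BDCh w N ξ) (p : ℤ) (s : Bool) (h : w.wd p s 0 = 2) :
    ξ (nx w p s) ∘ₗ N.Q.op (Sum.inr (ga w p s)) = ξ p := by
  unfold ga nx
  by_cases hs : s = w.rs p
  · rw [if_pos hs, if_pos hs]
    subst hs
    rw [wd_zero_R] at h
    have ht : w.ty p = true := by
      by_contra hc
      rw [if_neg hc] at h
      exact absurd h (by decide)
    exact hn.eT p ht
  · rw [if_neg hs, if_neg hs]
    rw [wd_zero_L hs] at h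
    have ht : w.ty (p - 1) = false := by
      by_contra hc
      rw [if_pos (by simpa using hc)] at h
      exact absurd h (by decide)
    have h1 := hn.eF (p - 1) ht
    rwa [sub_add_cancel] at h1

theorem dch_in {ξ : ℤ → N.C →ₗ[k] V} (hn : BDCh w N ξ) (p : ℤ) (s : Bool) (h : w.wd p s 0 = 0) :
    ξ p ∘ₗ N.Q.op (Sum.inr (ga w p s)) = ξ (nx w p s) := by
  unfold ga nx
  by_cases hs : s = w.rs p
  · rw [if_pos hs, if_pos hs]
    subst hs
    rw [wd_zero_R] at h
    have ht : w.ty p = false := by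
      by_contra hc
      rw [if_pos (by simpa using hc)] at h
      exact absurd h (by decide)
    exact hn.eF p ht
  · rw [if_neg hs, if_neg hs]
    rw [wd_zero_L hs] at h
    have ht : w.ty (p - 1) = true := by
      by_contra hc
      rw [if_neg hc] at h
      exact absurd h (by decide)
    have h1 := hn.eT (p - 1) ht
    rwa [sub_add_cancel] at h1

theorem rel2 (Q : QMod D k N.C) {b c : Fin D.nE} (h1 : D.tgt b = D.src c) (h2 : S.sT b = S.sS c) (x : N.C) :
    Q.op (Sum.inr c) (Q.op (Sum.inr b) x) = 0 := Q.rel _ (S.zero b c h1 h2) x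

theorem ker_zero {n : ℤ → N.C} (hn : BCh w N n) {ξ : ℤ → N.C →ₗ[k] V} (hξ : BDCh w N ξ) (m : ℕ) :
    ∀ (p q : ℤ) (s : Bool), w.v p = w.v q → (∀ i < m, w.wd p s i = w.wd q s i) → w.wd p s m = 2 → w.wd q s m = 0 →
      ξ p (n q) = 0 := by
  induction m with
  | zero =>
    intro p q s hv _ hp hq
    obtain ⟨a1, a2, a3, a4⟩ := step_out p s hp
    obtain ⟨b1, b2, b3, b4⟩ := step_in q s hq
    rw [← dch_out hξ p s hp, LinearMap.comp_apply, ← ch_in hn q s hq, rel2 (S := S) N.Q, map_zero]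
    · rw [b1, a1, hv]
    · rw [b2, a2]
  | succ m ih =>
    intro p q s hv hag hp hq
    have h0 := hag 0 (Nat.succ_pos m)
    have hstep : ξ p (n q) = ξ (nx w p s) (n (nx w q s)) ∧ w.v (nx w p s) = w.v (nx w q s) ∧
        ns w p s = ns w q s := by
      rcases wd_inf p s 0 with h | h
      · have h' := h0.symm.trans h
        obtain ⟨a1, a2, a3, a4⟩ := step_out p s h
        obtain ⟨b1, b2, b3, b4⟩ := step_out q s h'
        have hg : ga w p s = ga w q s := S.src_inj _ _ (by rw [a1, b1, hv]) (by rw [a2, b2])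
        refine ⟨?_, by rw [← a3, ← b3, hg], ?_⟩
        · rw [← dch_out hξ p s h, LinearMap.comp_apply, hg, ch_out hn q s h']
        · have : (!(ns w p s)) = !(ns w q s) := by rw [← a4, ← b4, hg]
          exact Bool.not_inj this
      · have h' := h0.symm.trans h
        obtain ⟨a1, a2, a3, a4⟩ := step_in p s h
        obtain ⟨b1, b2, b3, b4⟩ := step_in q s h'
        have hg : ga w p s = ga w q s := S.tgt_inj _ _ (by rw [a1, b1, hv]) (by rw [a2, b2])
        refine ⟨?_, by rw [← a3, ← b3, hg], ?_⟩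
        · rw [← dch_in hξ p s h, LinearMap.comp_apply, hg, ch_in hn q s h']
        · have : (!(ns w p s)) = !(ns w q s) := by rw [← a4, ← b4, hg]
          exact Bool.not_inj this
    rw [hstep.1]
    refine ih _ _ (ns w p s) hstep.2.1 ?_ ?_ ?_
    · intro i hi
      have := hag (i + 1) (by omega)
      rw [wd_succ', wd_succ'] at this
      rw [this, hstep.2.2]
    · rw [wd_succ'] at hp
      exact hp
    · rw [wd_succ', ← hstep.2.2] at hq
      exact hq

theorem Wd_tri (u v : Wd) : u = v ∨ WLt u v ∨ WLt v u := by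
  classical
  by_cases h : u = v
  · exact Or.inl h
  right
  have hex : ∃ n, u n ≠ v n := by
    by_contra hc
    push Not at hc
    exact h (funext hc)
  have h1 := Nat.find_spec hex
  have h2 := fun m (hm : m < Nat.find hex) => not_not.1 (Nat.find_min hex hm)
  rcases lt_or_gt_of_ne h1 with h3 | h3
  · exact Or.inl ⟨_, h2, h3⟩
  · exact Or.inr ⟨_, fun m hm => (h2 m hm).symm, h3⟩

/-- kernel values force the order of the words -/
theorem ker_le {n : ℤ → N.C} (hn : BCh w N n) {ξ : ℤ → N.C →ₗ[k] V} (hξ : BDCh w N ξ) (p q : ℤ)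
    (h : ξ p (n q) ≠ 0) : w.v p = w.v q ∧ ∀ s, WLw (w.wd p s) (w.wd q s) := by
  have hv : w.v p = w.v q := by
    by_contra hc
    apply h
    rw [← hξ.vtx p, LinearMap.comp_apply, ← hn.vtx q, N.Q.orth _ _ _ (Ne.symm hc),
      map_zero]
  refine ⟨hv, fun s => ?_⟩
  rcases Wd_tri (w.wd p s) (w.wd q s) with h1 | h1 | h1
  · exact Or.inl h1
  · exact Or.inr h1
  · exfalso
    apply h
    obtain ⟨m, h2, h3⟩ := h1
    rcases wd_inf p s m with h4 | h4
    · rcases wd_inf q s m with h5 | h5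
      · rw [h4, h5] at h3
        exact absurd h3 (lt_irrefl _)
      · exact ker_zero hn hξ m p q s hv (fun i hi => (h2 i hi).symm) h4 h5
    · rw [h4] at h3
      exact absurd h3 (by simp)

end ch

/-! ### Symmetries -/

theorem sync1 {p q : ℤ} {s : Bool} (hv : w.v p = w.v q) (h0 : w.wd p s 0 = w.wd q s 0) :
    ga w p s = ga w q s ∧ w.v (nx w p s) = w.v (nx w q s) ∧ ns w p s = ns w q s := by
  rcases wd_inf p s 0 with h | h
  · have h' := h0.symm.trans h
    obtain ⟨a1, a2, a3, a4⟩ := step_out p s h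
    obtain ⟨b1, b2, b3, b4⟩ := step_out q s h'
    have hg : ga w p s = ga w q s := S.src_inj _ _ (by rw [a1, b1, hv]) (by rw [a2, b2])
    refine ⟨hg, by rw [← a3, ← b3, hg], ?_⟩
    have : (!(ns w p s)) = !(ns w q s) := by rw [← a4, ← b4, hg]
    exact Bool.not_inj this
  · have h' := h0.symm.trans h
    obtain ⟨a1, a2, a3, a4⟩ := step_in p s h
    obtain ⟨b1, b2, b3, b4⟩ := step_in q s h'
    have hg : ga w p s = ga w q s := S.tgt_inj _ _ (by rw [a1, b1, hv]) (by rw [a2, b2])
    refine ⟨hg, by rw [← a3, ← b3, hg], ?_⟩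
    have : (!(ns w p s)) = !(ns w q s) := by rw [← a4, ← b4, hg]
    exact Bool.not_inj this

theorem sym_R {p q : ℤ} (hv : w.v p = w.v q) (hr : w.rs p = w.rs q) (hw : w.wd p (w.rs p) = w.wd q (w.rs q)) :
    w.v (p + 1) = w.v (q + 1) ∧ w.rs (p + 1) = w.rs (q + 1) ∧
      w.wd (p + 1) (w.rs (p + 1)) = w.wd (q + 1) (w.rs (q + 1)) ∧ w.ty p = w.ty q ∧ w.ar p = w.ar q := by
  have h0 : w.wd p (w.rs p) 0 = w.wd q (w.rs p) 0 := by rw [hw, hr]
  obtain ⟨h1, h2, h3⟩ := sync1 hv h0
  have e1 : nx w p (w.rs p) = p + 1 := if_pos rfl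
  have e2 : nx w q (w.rs p) = q + 1 := if_pos hr
  have e3 : ns w p (w.rs p) = w.rs (p + 1) := if_pos rfl
  have e4 : ns w q (w.rs p) = w.rs (q + 1) := if_pos hr
  have e5 : ga w p (w.rs p) = w.ar p := if_pos rfl
  have e6 : ga w q (w.rs p) = w.ar q := if_pos hr
  rw [e1, e2] at h2
  rw [e3, e4] at h3
  rw [e5, e6] at h1
  refine ⟨h2, h3, ?_, ?_, h1⟩
  · have h4 := wd_tail w p (w.rs p)
    have h5 := wd_tail w q (w.rs p)
    rw [e1, e3] at h4
    rw [e2, e4] at h5
    rw [← h4, ← h5, hw, hr]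
  · have h6 := congrFun hw 0
    rw [wd_zero_R, wd_zero_R] at h6
    cases h7 : w.ty p <;> cases h8 : w.ty q
    · rfl
    · rw [h7, h8] at h6; exact absurd h6 (by decide)
    · rw [h7, h8] at h6; exact absurd h6 (by decide)
    · rfl

theorem sym_L {p q : ℤ} (hv : w.v p = w.v q) (hr : w.rs p = w.rs q) (hw : w.wd p (!(w.rs p)) = w.wd q (!(w.rs q))) :
    w.v (p - 1) = w.v (q - 1) ∧ w.rs (p - 1) = w.rs (q - 1) ∧
      w.wd (p - 1) (!(w.rs (p - 1))) = w.wd (q - 1) (!(w.rs (q - 1))) ∧ w.ty (p - 1) = w.ty (q - 1) ∧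
      w.ar (p - 1) = w.ar (q - 1) := by
  have h0 : w.wd p (!(w.rs p)) 0 = w.wd q (!(w.rs p)) 0 := by rw [hw, hr]
  obtain ⟨h1, h2, h3⟩ := sync1 hv h0
  have hp : ¬ (!(w.rs p)) = w.rs p := by simp
  have hq : ¬ (!(w.rs p)) = w.rs q := by rw [hr]; simp
  have e1 : nx w p (!(w.rs p)) = p - 1 := if_neg hp
  have e2 : nx w q (!(w.rs p)) = q - 1 := if_neg hq
  have e3 : ns w p (!(w.rs p)) = !(w.rs (p - 1)) := if_neg hp
  have e4 : ns w q (!(w.rs p)) = !(w.rs (q - 1)) := if_neg hq
  have e5 : ga w p (!(w.rs p)) = w.ar (p - 1) := if_neg hp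
  have e6 : ga w q (!(w.rs p)) = w.ar (q - 1) := if_neg hq
  rw [e1, e2] at h2
  rw [e3, e4] at h3
  rw [e5, e6] at h1
  refine ⟨h2, Bool.not_inj h3, ?_, ?_, h1⟩
  · have h4 := wd_tail w p (!(w.rs p))
    have h5 := wd_tail w q (!(w.rs p))
    rw [e1, e3] at h4
    rw [e2, e4] at h5
    rw [← h4, ← h5, hw, hr]
  · have h6 := congrFun hw 0
    rw [wd_zero_L hp, wd_zero_L (by simp)] at h6
    cases h7 : w.ty (p - 1) <;> cases h8 : w.ty (q - 1)
    · rfl
    · rw [h7, h8] at h6; exact absurd h6 (by decide)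
    · rw [h7, h8] at h6; exact absurd h6 (by decide)
    · rfl

theorem sym_O {p q : ℤ} (hv : w.v p = w.v q) (hr : ¬ w.rs p = w.rs q) (hw : w.wd p (w.rs p) = w.wd q (w.rs p)) :
    w.v (p + 1) = w.v (q - 1) ∧ ¬ w.rs (p + 1) = w.rs (q - 1) ∧
      w.wd (p + 1) (w.rs (p + 1)) = w.wd (q - 1) (w.rs (p + 1)) ∧ ¬ w.ty p = w.ty (q - 1) := by
  obtain ⟨h1, h2, h3⟩ := sync1 hv (congrFun hw 0)
  have e1 : nx w p (w.rs p) = p + 1 := if_pos rfl
  have e2 : nx w q (w.rs p) = q - 1 := if_neg hr
  have e3 : ns w p (w.rs p) = w.rs (p + 1) := if_pos rfl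
  have e4 : ns w q (w.rs p) = !(w.rs (q - 1)) := if_neg hr
  rw [e1, e2] at h2
  rw [e3, e4] at h3
  refine ⟨h2, ?_, ?_, ?_⟩
  · rw [h3]; simp
  · have h4 := wd_tail w p (w.rs p)
    have h5 := wd_tail w q (w.rs p)
    rw [e1, e3] at h4
    rw [e2, e4] at h5
    rw [← h4, hw, h5, h3]
  · have h6 := congrFun hw 0
    rw [wd_zero_R, wd_zero_L hr] at h6
    intro h7
    rw [h7] at h6
    cases h8 : w.ty (q - 1) <;> rw [h8] at h6 <;> exact absurd h6 (by decide)

/-- there is no symmetry which reverses the orientation -/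
theorem no_reflect (d : ℕ) : ∀ p q : ℤ, q - p = d → w.v p = w.v q → ¬ w.rs p = w.rs q →
    w.wd p (w.rs p) = w.wd q (w.rs p) → False := by
  induction d using Nat.strong_induction_on with
  | _ d ih =>
    intro p q hd hv hr hw
    obtain ⟨h1, h2, h3, h4⟩ := sym_O hv hr hw
    rcases Nat.lt_or_ge d 2 with h5 | h5
    · interval_cases d
      · have : q = p := by
          have : q - p = 0 := by simpa using hd
          omega
        subst this
        exact hr rfl
      · have : q = p + 1 := by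
          have : q - p = 1 := by simpa using hd
          omega
        subst this
        apply h4
        rw [add_sub_cancel_right]
    · exact ih (d - 2) (by omega) (p + 1) (q - 1) (by omega) h1 h2 h3

/-- (SYM) -/
theorem sym_per {p q : ℤ} (hv : w.v p = w.v q) (hw : ∀ s, w.wd p s = w.wd q s) : w.Per (q - p) := by
  have hr : w.rs p = w.rs q := by
    by_contra hr
    rcases le_total p q with h | h
    · exact no_reflect (q - p).toNat p q (by omega) hv hr (hw _)
    · exact no_reflect (p - q).toNat q p (by omega) hv.symm (fun h' => hr h'.symm) (hw _).symm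
  have hR : ∀ n : ℕ, w.v (p + n) = w.v (q + n) ∧ w.rs (p + n) = w.rs (q + n) ∧
      w.wd (p + n) (w.rs (p + n)) = w.wd (q + n) (w.rs (q + n)) := by
    intro n
    induction n with
    | zero =>
      refine ⟨by simpa using hv, by simpa using hr, ?_⟩
      rw [Nat.cast_zero, add_zero, add_zero, hw, hr]
    | succ n ih =>
      obtain ⟨h1, h2, h3, -, -⟩ := sym_R ih.1 ih.2.1 ih.2.2
      push_cast
      rw [← add_assoc, ← add_assoc]
      exact ⟨h1, h2, h3⟩
  have hL : ∀ n : ℕ, w.v (p - n) = w.v (q - n) ∧ w.rs (p - n) = w.rs (q - n) ∧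
      w.wd (p - n) (!(w.rs (p - n))) = w.wd (q - n) (!(w.rs (q - n))) := by
    intro n
    induction n with
    | zero =>
      refine ⟨by simpa using hv, by simpa using hr, ?_⟩
      rw [Nat.cast_zero, sub_zero, sub_zero, hw, hr]
    | succ n ih =>
      obtain ⟨h1, h2, h3, -, -⟩ := sym_L ih.1 ih.2.1 ih.2.2
      push_cast
      rw [← sub_sub, ← sub_sub]
      exact ⟨h1, h2, h3⟩
  intro t
  rcases le_or_gt p t with h | h
  · obtain ⟨n, rfl⟩ : ∃ n : ℕ, t = p + n := ⟨(t - p).toNat, by omega⟩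
    have e : p + (n : ℤ) + (q - p) = q + n := by ring
    obtain ⟨h1, h2, h3⟩ := hR n
    obtain ⟨-, -, -, h4, h5⟩ := sym_R h1 h2 h3
    rw [e]
    exact ⟨h1.symm, h2.symm, h4.symm, h5.symm⟩
  · obtain ⟨n, rfl⟩ : ∃ n : ℕ, t = p - n - 1 := ⟨(p - t - 1).toNat, by omega⟩
    have e : p - (n : ℤ) - 1 + (q - p) = q - n - 1 := by ring
    obtain ⟨h1, h2, h3⟩ := hL n
    obtain ⟨h4, h5, -, h6, h7⟩ := sym_L h1 h2 h3
    rw [e]
    exact ⟨h4.symm, h5.symm, h6.symm, h7.symm⟩

end inf

theorem Per_neg {w : BiS S} {d : ℤ} (h : w.Per d) : w.Per (-d) := by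
  intro p
  obtain ⟨h2, h3, h4, h5⟩ := h (p + -d)
  rw [neg_add_cancel_right] at h2 h3 h4 h5
  exact ⟨h2.symm, h3.symm, h4.symm, h5.symm⟩

theorem Per_add {w : BiS S} {d e : ℤ} (h : w.Per d) (h' : w.Per e) : w.Per (d + e) := by
  intro p
  obtain ⟨h2, h3, h4, h5⟩ := h p
  obtain ⟨g2, g3, g4, g5⟩ := h' (p + d)
  rw [← add_assoc]
  exact ⟨g2.trans h2, g3.trans h3, g4.trans h4, g5.trans h5⟩

theorem Per_mul' {w : BiS S} {d : ℤ} (h : w.Per d) (t : ℤ) : w.Per (t * d) := by
  induction t using Int.induction_on with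
  | zero =>
    rw [zero_mul]
    intro p
    rw [add_zero]
    exact ⟨rfl, rfl, rfl, rfl⟩
  | succ i ih => rw [add_mul, one_mul]; exact Per_add ih h
  | pred i ih => rw [sub_mul, one_mul, sub_eq_add_neg]; exact Per_add ih (Per_neg h)

/-- the periods are the multiples of the minimal period -/
theorem dvd_of_per {w : BiS S} {l : ℕ} (hl : w.MinPer l) {d : ℤ} (h : w.Per d) : (l : ℤ) ∣ d := by
  obtain ⟨h0, h1, h2⟩ := hl
  have h3 : w.Per (d % l) := by
    have : d % l = d + (-(d / l)) * l := by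
      rw [Int.emod_def]; ring
    rw [this]
    exact Per_add h (Per_mul' h1 _)
  have hl0 : (0 : ℤ) < l := by exact_mod_cast h0
  have h4 := Int.emod_nonneg d hl0.ne'
  have h5 := Int.emod_lt_of_pos d hl0
  by_contra hc
  have h6 : d % l ≠ 0 := fun h => hc (Int.dvd_of_emod_eq_zero h)
  have h7 : ((d % l).toNat : ℤ) = d % l := by omega
  have h8 := h2 (d % l).toNat (by omega) (by rw [h7]; exact h3)
  omega

end TT

end StrAlg
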