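import Pool.Agent.Lib.MP_b9fd58_lc.T.TS

/-!
# Stream T: the maps `π : N → M(b,W)` and `ε : M(b,W) → N`
-/

set_option autoImplicit false

namespace StrAlg

namespace TT

open Module Polynomial SAlg

variable {D : Dat} {k : Type} [Field k] {S : Sides D}

/-- the band as `BiS` -/
noncomputable abbrev bb {b : Str S} {l : ℕ} (hl : b.MinPer l) : BiS S := bi b hl.2.1.2

/-- the relations of the band -/
noncomputable abbrev rl {b : Str S} {l : ℕ} (hl : b.MinPer l) (N : Md D k) : BRel k N.C :=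
  brel (bb hl) hl.1 (bi_per hl.2.1.2 hl.2.1) N

section split
variable {b : Str S} {l : ℕ} (hl : b.MinPer l) {N : Md D k} {W : Submodule k[X] (rl hl N).QX}
  (hW : IsCompl (rl hl N).K0 W) (ρ : (rl hl N).PX →ₗ[k[X]] W)

/-- multiplication by `X` on `W` -/
noncomputable def TW : W ≃ₗ[k] W := by
  let f : W →ₗ[k] W :=
    { toFun := fun x => (X : k[X]) • x
      map_add' := fun a b => smul_add _ _ _
      map_smul' := fun c a => by
        rw [RingHom.id_apply, ← C_smul_eq c a, ← C_smul_eq c, smul_smul, smul_smul, mul_comm] }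
  refine LinearEquiv.ofBijective f ⟨?_, ?_⟩
  · rw [injective_iff_map_eq_zero]
    intro x hx
    have h1 : (X : k[X]) • (x : (rl hl N).QX) = 0 := congrArg Subtype.val hx
    apply Subtype.ext
    apply BRel.ext_val
    intro p
    have h2 : (rl hl N).val ((X : k[X]) • (x : (rl hl N).QX)) (p - l) = (rl hl N).val 0 (p - l) := by rw [h1]
    rw [BRel.val_X, BRel.val_zero] at h2
    have h3 : ((rl hl N).l : ℤ) = l := rfl
    rw [h3, sub_add_cancel] at h2
    rw [h2]
    exact (BRel.val_zero _ _).symm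
  · intro x
    -- the inverse shift of `x`
    let y : (rl hl N).QX := (rl hl N).mkQ (fun p => (rl hl N).val x (p - l)) (by
      intro p
      have h1 := (rl hl N).val_rel x (p - l)
      have h2 := (rl hl N).R_per (p - l)
      have h3 : ((rl hl N).l : ℤ) = l := rfl
      rw [h3, sub_add_cancel] at h2
      rw [← h2] at h1
      rw [show p + 1 - (l : ℤ) = p - l + 1 by ring]
      exact h1)
    have hy : (X : k[X]) • y = x := by
      apply BRel.ext_val
      intro p
      rw [BRel.val_X, BRel.val_mkQ]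
      have h3 : ((rl hl N).l : ℤ) = l := rfl
      rw [h3, add_sub_cancel_right]
    have hy' : y ∈ (rl hl N).K0 ⊔ W := by rw [hW.sup_eq_top]; exact Submodule.mem_top
    obtain ⟨a, ha, c, hc, hac⟩ := Submodule.mem_sup.1 hy'
    refine ⟨⟨c, hc⟩, Subtype.ext ?_⟩
    show (X : k[X]) • c = x
    have h4 : (X : k[X]) • a = x - (X : k[X]) • c := by
      rw [← hy, ← hac, smul_add]
      abel
    have h5 : (X : k[X]) • a ∈ (rl hl N).K0 ⊓ W := by
      refine ⟨Submodule.smul_mem _ _ ha, ?_⟩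
      rw [h4]
      exact W.sub_mem x.2 (W.smul_mem _ hc)
    rw [hW.inf_eq_bot, Submodule.mem_bot, h4, sub_eq_zero] at h5
    exact h5.symm

theorem TW_apply (x : W) : TW hl hW x = (X : k[X]) • x := rfl

theorem TW_ok : b.PerOK l (TW hl hW) := ⟨hl.2.1.1, fun _ => hl.2.1.2, fun h => absurd h hl.1.ne'⟩

theorem rho_k (c : k) (x : (rl hl N).PX) : ρ (c • x) = c • ρ x := by
  rw [← C_smul_eq c x, map_smul]
  exact C_smul_eq c (ρ x)

/-- the components of `π` -/
noncomputable def xi (p : ℤ) : N.C →ₗ[k] W where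
  toFun n := ρ ((rl hl N).dl p n)
  map_add' x y := by rw [map_add, map_add]
  map_smul' c x := by rw [map_smul, rho_k, RingHom.id_apply]

theorem xi_apply (p : ℤ) (n : N.C) : xi hl ρ p n = ρ ((rl hl N).dl p n) := rfl

theorem xi_v (p : ℤ) : xi hl ρ p ∘ₗ N.Q.op (Sum.inl ((bb hl).v p)) = xi hl ρ p := by
  ext n
  rw [LinearMap.comp_apply, xi_apply, xi_apply]
  congr 2
  exact (rl hl N).dl_e p n

theorem xi_T (p : ℤ) (x : N.C) (ht : (bb hl).ty p = true) (hx : N.Q.op (Sum.inl ((bb hl).v p)) x = x) :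
    xi hl ρ (p + 1) (N.Q.op (Sum.inr ((bb hl).ar p)) x) = xi hl ρ p x := by
  rw [xi_apply, xi_apply]
  congr 1
  symm
  apply BRel.dl_rel
  refine mem_brel.2 ⟨hx, ?_, fun _ => rfl, fun h => ?_⟩
  · obtain ⟨-, -, e1, -⟩ := (bb hl).edgeT p ht
    rw [← e1]
    exact N.Q.tgt _ _
  · rw [ht] at h
    exact absurd h (by decide)

theorem xi_F (p : ℤ) (x : N.C) (ht : (bb hl).ty p = false) (hx : N.Q.op (Sum.inl ((bb hl).v (p + 1))) x = x) :
    xi hl ρ p (N.Q.op (Sum.inr ((bb hl).ar p)) x) = xi hl ρ (p + 1) x := by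
  rw [xi_apply, xi_apply]
  congr 1
  apply BRel.dl_rel
  refine mem_brel.2 ⟨?_, hx, fun h => ?_, fun _ => rfl⟩
  · obtain ⟨e1, -, -, -⟩ := (bb hl).edgeF p ht
    rw [← e1]
    exact N.Q.tgt _ _
  · rw [ht] at h
    exact absurd h (by decide)

theorem xi_dch : BDCh (bb hl) N (xi hl ρ) := by
  refine ⟨fun p => xi_v hl ρ p, ?_, ?_⟩
  · intro p ht
    ext x
    rw [LinearMap.comp_apply]
    obtain ⟨e1, -, -, -⟩ := (bb hl).edgeT p ht
    rw [← N.Q.src, e1, xi_T hl ρ p _ ht (N.Q.idem _ _), ← LinearMap.comp_apply, xi_v]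
  · intro p ht
    ext x
    rw [LinearMap.comp_apply]
    obtain ⟨-, -, e1, -⟩ := (bb hl).edgeF p ht
    rw [← N.Q.src, e1, xi_F hl ρ p _ ht (N.Q.idem _ _), ← LinearMap.comp_apply, xi_v]

/-- the module `M(b,W)` -/
noncomputable abbrev MW : Md D k := b.ME l (TW hl hW) (TW_ok hl hW)

/-- the map `π` -/
noncomputable def piT : N.C →ₗ[k] (MW hl hW).C :=
  (LinearMap.pi (xi hl ρ)).codRestrict (b.LB l (TW hl hW) (TW_ok hl hW)).S (fun n => by
    refine ⟨fun p hp => absurd (b.Z_univ hl.2.1.2 p) hp, fun p => ?_⟩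
    show TW hl hW (xi hl ρ (p + l) n) = xi hl ρ p n
    have h1 : p + (l : ℤ) - ((rl hl N).l : ℤ) = p := by
      show p + (l : ℤ) - l = p
      ring
    rw [TW_apply, xi_apply, xi_apply, ← map_smul, BRel.dl_X, h1])

theorem piT_apply (n : N.C) (p : ℤ) : (piT hl hW ρ n).1 p = xi hl ρ p n := rfl

theorem piT_hom : N.Hom (MW hl hW) (piT hl hW ρ) := by
  intro g n
  apply Subtype.ext
  funext p
  rcases g with i | a
  · show xi hl ρ p (N.Q.op (Sum.inl i) n) = if b.L.v p = i then xi hl ρ p n else 0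
    have hv := xi_v hl ρ p
    by_cases h : b.L.v p = i
    · rw [if_pos h, ← h]
      exact LinearMap.congr_fun hv n
    · have h2 : N.Q.op (Sum.inl ((bb hl).v p)) (N.Q.op (Sum.inl i) n) = 0 :=
        N.Q.orth _ _ _ (fun h' => h h'.symm)
      rw [if_neg h, ← hv, LinearMap.comp_apply, h2, map_zero]
  · show xi hl ρ p (N.Q.op (Sum.inr a) n) = fop k S.ends b.L (Sum.inr a) (fun q => xi hl ρ q n) p
    rw [fop_bi hl.2.1.2, dual_op (xi_v hl ρ) (fun p x => xi_T hl ρ p x) (fun p x => xi_F hl ρ p x)]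

/-- value at `q` of the chain `w` -/
noncomputable def vl (q : ℤ) : W →ₗ[k] N.C where
  toFun w := (rl hl N).val w.1 q
  map_add' _ _ := BRel.val_add _ _ _ _
  map_smul' _ _ := BRel.val_smul _ _ _ _

theorem vl_ch (w : W) : BCh (bb hl) N (fun q => vl hl q w) := by
  rw [BCh_iff hl.1 (bi_per hl.2.1.2 hl.2.1) N]
  exact (rl hl N).val_rel w.1

theorem vl_T (q : ℤ) (w : W) : vl hl q (TW hl hW w) = vl hl (q + l) w := by
  rw [TW_apply]
  exact BRel.val_X _ _ _

/-- the map `ε` -/
noncomputable def epT : (MW hl hW).C →ₗ[k] N.C where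
  toFun m := ∑ q ∈ Finset.range l, vl hl (q : ℤ) (m.1 q)
  map_add' x y := by
    rw [← Finset.sum_add_distrib]
    refine Finset.sum_congr rfl fun q _ => ?_
    rw [← map_add]
    rfl
  map_smul' c x := by
    rw [RingHom.id_apply, Finset.smul_sum]
    refine Finset.sum_congr rfl fun q _ => ?_
    rw [← map_smul]
    rfl

theorem epT_apply (m : (MW hl hW).C) : epT hl hW m = ∑ q ∈ Finset.range l, vl hl (q : ℤ) (m.1 q) := rfl

theorem epT_hom : (MW hl hW).Hom N (epT hl hW) := by
  intro g m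
  rw [epT_apply, epT_apply, map_sum]
  have hm : ∀ p : ℤ, TW hl hW (m.1 (p + l)) = m.1 p := m.2.2
  rcases g with i | a
  · refine Finset.sum_congr rfl fun q _ => ?_
    show vl hl (q : ℤ) (if b.L.v q = i then m.1 q else 0) = _
    have hv := (vl_ch hl (m.1 q)).vtx q
    by_cases h : b.L.v q = i
    · rw [if_pos h, ← h]
      exact hv.symm
    · have h2 : N.Q.op (Sum.inl i) (N.Q.op (Sum.inl ((bb hl).v q)) (vl hl (q : ℤ) (m.1 q))) = 0 :=
        N.Q.orth _ _ _ h
      rw [if_neg h, map_zero, ← hv]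
      exact h2.symm
  · have e1 : ∀ q : ℤ, vl hl q (((MW hl hW).Q.op (Sum.inr a) m).1 q) =
        (if (bb hl).ty (q - 1) = true ∧ (bb hl).ar (q - 1) = a then vl hl q (m.1 (q - 1)) else 0) +
        (if (bb hl).ty q = false ∧ (bb hl).ar q = a then vl hl q (m.1 (q + 1)) else 0) := by
      intro q
      show vl hl q (fop k S.ends b.L (Sum.inr a) m.1 q) = _
      rw [fop_bi hl.2.1.2, map_add, apply_ite (vl hl q), apply_ite (vl hl q), map_zero]
    have e2 : ∀ q : ℤ, N.Q.op (Sum.inr a) (vl hl q (m.1 q)) =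
        (if (bb hl).ty q = true ∧ (bb hl).ar q = a then vl hl (q + 1) (m.1 q) else 0) +
        (if (bb hl).ty (q - 1) = false ∧ (bb hl).ar (q - 1) = a then vl hl (q - 1) (m.1 q) else 0) := by
      intro q
      exact chain_op (vl_ch hl (m.1 q)) a q
    refine (Finset.sum_congr rfl (fun (q : ℕ) _ => e1 (q : ℤ))).trans
      (Eq.trans ?_ (Finset.sum_congr rfl (fun (q : ℕ) _ => (e2 (q : ℤ)).symm)))
    rw [Finset.sum_add_distrib, Finset.sum_add_distrib]
    have hper := bi_per hl.2.1.2 hl.2.1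
    congr 1
    · have h1 := sum_range_shift l (fun q : ℤ => if (bb hl).ty (q - 1) = true ∧ (bb hl).ar (q - 1) = a then
        vl hl q (m.1 (q - 1)) else 0) (by
          intro q
          obtain ⟨-, -, g1, g2⟩ := hper (q - 1)
          have e3 : q + (l : ℤ) - 1 = q - 1 + l := by ring
          simp only [e3, g1, g2]
          congr 1
          rw [← vl_T hl hW, hm])
      rw [← h1]
      refine Finset.sum_congr rfl fun q _ => ?_
      simp only [add_sub_cancel_right]
    · have h1 := sum_range_shift l (fun q : ℤ => if (bb hl).ty (q - 1) = false ∧ (bb hl).ar (q - 1) = a then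
        vl hl (q - 1) (m.1 q) else 0) (by
          intro q
          obtain ⟨-, -, g1, g2⟩ := hper (q - 1)
          have e3 : q + (l : ℤ) - 1 = q - 1 + l := by ring
          simp only [e3, g1, g2]
          congr 1
          rw [← vl_T hl hW, hm])
      rw [← h1]
      refine Finset.sum_congr rfl fun q _ => ?_
      simp only [add_sub_cancel_right]

end split

end TT

end StrAlg
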